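import Pool.Agent.U590.WS.Domain2

/-! The two domains are contractible. -/

open Complex Set Filter Topology Metric
open scoped Real NNReal

namespace Pool.Agent.U590.WS

noncomputable section

variable {m n : ℕ}

lemma contractible_of_segments {E : Type*} [NormedAddCommGroup E] [NormedSpace ℝ E] {S : Set E}
    {g : E → E} (hg : Continuous g) {p : E} (hp : p ∈ S)
    (h1 : ∀ z ∈ S, ∀ t ∈ Icc (0 : ℝ) 1, (1 - t) • z + t • g z ∈ S)
    (h2 : ∀ z ∈ S, ∀ t ∈ Icc (0 : ℝ) 1, (1 - t) • g z + t • p ∈ S) : ContractibleSpace S := by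
  rw [contractible_iff_id_nullhomotopic]
  have hgS : ∀ z ∈ S, g z ∈ S := fun z hz => by simpa using h1 z hz 1 ⟨zero_le_one, le_rfl⟩
  let G : C(S, S) := ⟨fun z => ⟨g z, hgS z z.2⟩,
    (hg.comp continuous_subtype_val).subtype_mk _⟩
  refine ⟨⟨p, hp⟩, ContinuousMap.Homotopic.trans (g := G) ?_ ?_⟩
  · refine ⟨⟨⟨fun q => ⟨(1 - (q.1 : ℝ)) • (q.2 : E) + (q.1 : ℝ) • g q.2, h1 _ q.2.2 _ q.1.2⟩, ?_⟩, ?_, ?_⟩⟩
    · refine Continuous.subtype_mk ?_ _
      fun_prop
    · intro x; apply Subtype.ext; simp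
    · intro x; apply Subtype.ext; simp [G]
  · refine ⟨⟨⟨fun q => ⟨(1 - (q.1 : ℝ)) • g (q.2 : E) + (q.1 : ℝ) • p, h2 _ q.2.2 _ q.1.2⟩, ?_⟩, ?_, ?_⟩⟩
    · refine Continuous.subtype_mk ?_ _
      fun_prop
    · intro x; apply Subtype.ext; simp [G]
    · intro x; apply Subtype.ext; simp

lemma contractible_of_homeo {A B : Set (Eu n)} {f g : Eu n → Eu n} (hf : MapsTo f A B)
    (hg : MapsTo g B A) (h : InvOn g f A B) (hfc : ContinuousOn f A) (hgc : ContinuousOn g B)
    [ContractibleSpace B] : ContractibleSpace A := by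
  let e : A ≃ₜ B :=
    { toFun := fun z => ⟨f z, hf z.2⟩
      invFun := fun z => ⟨g z, hg z.2⟩
      left_inv := fun z => Subtype.ext (h.1 z.2)
      right_inv := fun z => Subtype.ext (h.2 z.2)
      continuous_toFun := (continuousOn_iff_continuous_restrict.1 hfc).subtype_mk _
      continuous_invFun := (continuousOn_iff_continuous_restrict.1 hgc).subtype_mk _ }
  exact e.contractibleSpace

/-- move the coordinate `0` to `-1/2` -/
def slide (z : Eu (m + 3)) : Eu (m + 3) := z + (-(1 / 2) - z 0) • EuclideanSpace.single 0 1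

lemma continuous_slide : Continuous (slide : Eu (m + 3) → Eu (m + 3)) := by
  unfold slide
  have := continuous_coord (m := m) 0
  fun_prop

lemma slide_zero (z : Eu (m + 3)) : slide z 0 = -(1 / 2) := by
  simp [slide]

lemma slide_ne (z : Eu (m + 3)) {i : Fin (m + 3)} (hi : i ≠ 0) : slide z i = z i := by
  simp [slide, hi]

lemma W_slide (z : Eu (m + 3)) : W (slide z) = W z := by
  simp only [W, slide_ne z (zero_ne_one'.symm), slide_ne z (zero_ne_two'.symm)]

lemma side_slide {z : Eu (m + 3)} (hz : Side z) : Side (slide z) := by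
  refine ⟨by rw [slide_zero]; norm_num, fun i hi => ?_⟩
  have h0 : i ≠ 0 := by intro h; rw [h] at hi; simp at hi
  rw [slide_ne z h0]
  exact hz.2 i hi

lemma contractible_OmS : ContractibleSpace (OmS m) := by
  have hbox : ∀ z ∈ OmS m, slide z ∈ {z : Eu (m + 3) | Side z ∧ z 0 < 0 ∧ ‖W z‖ < 1} := by
    rintro z ⟨h1, h2⟩
    refine ⟨side_slide h1, by rw [slide_zero]; norm_num, ?_⟩
    rw [W_slide]
    rcases h2 with h | ⟨j, hj, h⟩
    · exact h.2
    · have h3 := (sq_norm h).2
      have h4 : ((1 : ℝ) / 10) ^ j ≤ (1 / 10) ^ 1 :=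
        pow_le_pow_of_le_one (by norm_num) (by norm_num) hj
      rw [pow_one] at h4
      linarith
  have href : (ref 0 : Eu (m + 3)) ∈ {z : Eu (m + 3) | Side z ∧ z 0 < 0 ∧ ‖W z‖ < 1} := by
    refine ⟨ref_side 0, ?_, ?_⟩
    · rw [ref_zero]; norm_num
    · rw [ref, W_put]; simp
  have hb0 : ∀ z : Eu (m + 3), (Side z ∧ z 0 < 0 ∧ ‖W z‖ < 1) → z ∈ OmS m :=
    fun z h => ⟨h.1, Or.inl h.2⟩
  refine contractible_of_segments continuous_slide (hb0 _ href) ?_ ?_
  · rintro z hz t ⟨ht0, ht1⟩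
    have hW : W ((1 - t) • z + t • slide z) = W z := by
      rw [W_comb, W_slide]; push_cast; ring
    refine ⟨convex_side hz.1 (side_slide hz.1) (by linarith) ht0 (by ring), ?_⟩
    rw [hW]
    rcases hz.2 with h | h
    · left
      refine ⟨?_, h.2⟩
      have := (convex_Iio (0 : ℝ)) h.1 (show slide z 0 < 0 by rw [slide_zero]; norm_num)
        (show (0 : ℝ) ≤ 1 - t by linarith) ht0 (by ring)
      simpa using this
    · exact Or.inr h
  · rintro z hz t ⟨ht0, ht1⟩
    exact hb0 _ (convex_box (hbox z hz) href (by linarith) ht0 (by ring))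

lemma contractible_OmT : ContractibleSpace (OmT m) := by
  have := contractible_OmS (m := m)
  refine contractible_of_homeo (f := Shi) (g := Sh) (B := OmS m) (fun z hz => hz) (fun z hz => ?_)
    ⟨fun z _ => Sh_Shi z, fun z _ => Shi_Sh z⟩ (fun z hz => (Shi_continuousAt hz).continuousWithinAt)
    (fun z hz => (Sh_continuousAt hz).continuousWithinAt)
  show Shi (Sh z) ∈ OmS m
  rw [Shi_Sh]; exact hz

lemma contractible_Om : ContractibleSpace (Om m) := by
  have := contractible_OmT (m := m)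
  exact contractible_of_homeo (f := F m 0) (g := Fi m 0) (B := OmT m) (bijOn_F 0).mapsTo
    (fun z hz => Fi_mem hz) (invOn_F 0) (F_continuousOn 0) (Fi_continuousOn 0)

end

end Pool.Agent.U590.WS
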