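import Pool.Agent.U590.WS.Weak
import Pool.Agent.Helper656.SobCore

/-! Weak convergence of bounded sequences with converging integrals against test functions. -/

open MeasureTheory Set Filter Topology Metric
open scoped ENNReal NNReal InnerProductSpace ContDiff

namespace Pool.Agent.U590.WS

noncomputable section

variable {n : ℕ}

/-- density of test functions in `L¹(Ω)` -/
lemma dense_test {Ω : Set (Eu n)} (hΩ : IsOpen Ω) (hfin : volume Ω < ⊤) {h : Eu n → ℝ}
    (hh : Integrable h (volume.restrict Ω)) {ε : ℝ} (hε : 0 < ε) :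
    ∃ φ : Eu n → ℝ, ContDiff ℝ ∞ φ ∧ HasCompactSupport φ ∧ tsupport φ ⊆ Ω ∧
      ∫ x in Ω, |h x - φ x| ≤ ε := by
  obtain ⟨g, hgc, hgs, hg⟩ := MemLp.exist_eLpNorm_sub_le (μ := volume.restrict Ω) (p := 1) (by simp)
    le_rfl (memLp_one_iff_integrable.2 hh) (half_pos hε)
  have hgi : Integrable g (volume.restrict Ω) :=
    (hgs.continuous.integrable_of_hasCompactSupport hgc).restrict
  -- bound of `g`
  obtain ⟨B, hB⟩ := hgs.continuous.bounded_above_of_compact_support hgc
  have hB0 : 0 ≤ B := (norm_nonneg _).trans (hB 0)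
  -- compact subset of almost full measure
  obtain ⟨K, hKΩ, hK, hKv⟩ : ∃ K ⊆ Ω, IsCompact K ∧ (volume (Ω \ K)).toReal ≤ ε / 2 / (2 * B + 1) := by
    set δ : ℝ := ε / 2 / (2 * B + 1) with hδ
    have hδ0 : 0 < δ := by positivity
    rcases eq_or_ne (volume Ω) 0 with h0 | h0
    · refine ⟨∅, empty_subset _, isCompact_empty, ?_⟩
      simp [h0, hδ0.le]
    · have hlt : volume Ω - ENNReal.ofReal δ < volume Ω :=
        ENNReal.sub_lt_self hfin.ne h0 (by simpa using hδ0)
      obtain ⟨K, hK1, hK2, hK3⟩ := hΩ.exists_lt_isCompact hlt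
      refine ⟨K, hK1, hK2, ?_⟩
      have h1 : volume (Ω \ K) = volume Ω - volume K :=
        measure_diff hK1 hK2.measurableSet.nullMeasurableSet hK2.measure_lt_top.ne
      have h2 : volume (Ω \ K) ≤ ENNReal.ofReal δ := by
        rw [h1, tsub_le_iff_right]
        rw [← tsub_le_iff_left] 
        exact hK3.le
      exact ENNReal.toReal_le_of_le_ofReal hδ0.le h2
  obtain ⟨κ, hκ, hκ1, hκ2⟩ := Pool.Agent.Helper656.Sob.exists_cutoff hΩ hK hKΩ
  obtain ⟨hκs, hκc, hκΩ⟩ := hκ
  refine ⟨fun x => κ x * g x, hκs.mul hgs, hκc.mul_right, (tsupport_mul_subset_left).trans hκΩ, ?_⟩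
  have hκg : Integrable (fun x => κ x * g x) (volume.restrict Ω) :=
    ((hκs.continuous.mul hgs.continuous).integrable_of_hasCompactSupport hκc.mul_right).restrict
  have i1 : Integrable (fun x => |h x - g x|) (volume.restrict Ω) := (hh.sub hgi).abs
  have i2 : Integrable (fun x => |g x - κ x * g x|) (volume.restrict Ω) := (hgi.sub hκg).abs
  calc ∫ x in Ω, |h x - κ x * g x| ≤ ∫ x in Ω, (|h x - g x| + |g x - κ x * g x|) := by
        refine integral_mono (hh.sub hκg).abs (i1.add i2) fun x => ?_
        exact abs_sub_le _ _ _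
    _ = (∫ x in Ω, |h x - g x|) + ∫ x in Ω, |g x - κ x * g x| := integral_add i1 i2
    _ ≤ ε / 2 + ε / 2 := by
        refine add_le_add ?_ ?_
        · have h3 : ∫ x in Ω, |h x - g x| = (eLpNorm (h - g) 1 (volume.restrict Ω)).toReal := by
            rw [eLpNorm_one_eq_lintegral_enorm, ← integral_norm_eq_lintegral_enorm]
            · rfl
            · exact (hh.sub hgi).aestronglyMeasurable
          rw [h3]
          exact ENNReal.toReal_le_of_le_ofReal (half_pos hε).le hg
        · have h4 : ∀ x, |g x - κ x * g x| ≤ (Kᶜ).indicator (fun _ => 2 * B) x := by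
            intro x
            by_cases hx : x ∈ K
            · have : κ x = 1 := hκ1.self_of_nhdsSet x hx
              simp [this, hx]
            · rw [indicator_of_mem hx]
              have e1 : g x - κ x * g x = (1 - κ x) * g x := by ring
              rw [e1, abs_mul]
              have a1 : |1 - κ x| ≤ 2 := by
                have := abs_le.1 (hκ2 x)
                rw [abs_le]; constructor <;> linarith
              have a2 : |g x| ≤ B := hB x
              exact mul_le_mul a1 a2 (abs_nonneg _) (by norm_num)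
          have h5 : ∫ x in Ω, |g x - κ x * g x| ≤ ∫ x in Ω, (Kᶜ).indicator (fun _ => 2 * B) x := by
            have : IsFiniteMeasure (volume.restrict Ω) := ⟨by simpa using hfin⟩
            refine integral_mono i2 ?_ h4
            exact (integrable_const _).indicator hK.measurableSet.compl
          refine h5.trans ?_
          rw [integral_indicator hK.measurableSet.compl, Measure.restrict_restrict hK.measurableSet.compl]
          have e2 : Kᶜ ∩ Ω = Ω \ K := by rw [inter_comm]; rfl
          rw [e2, setIntegral_const, smul_eq_mul]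
          have h6 : volume.real (Ω \ K) ≤ ε / 2 / (2 * B + 1) := hKv
          calc volume.real (Ω \ K) * (2 * B) ≤ ε / 2 / (2 * B + 1) * (2 * B + 1) := by
                gcongr; linarith
            _ = ε / 2 := by field_simp
    _ = ε := by ring

/-- scalar weak convergence by density -/
lemma weak_scalar {Ω : Set (Eu n)} (hΩ : IsOpen Ω) (hfin : volume Ω < ⊤) {w : ℕ → Eu n → ℝ}
    {w0 : Eu n → ℝ} {A : ℝ} (hm : ∀ k, AEStronglyMeasurable (w k) (volume.restrict Ω))
    (hm0 : AEStronglyMeasurable w0 (volume.restrict Ω))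
    (hb : ∀ k, ∀ x ∈ Ω, |w k x| ≤ A) (hb0 : ∀ x ∈ Ω, |w0 x| ≤ A)
    (ht : ∀ φ : Eu n → ℝ, ContDiff ℝ ∞ φ → HasCompactSupport φ → tsupport φ ⊆ Ω →
      Tendsto (fun k => ∫ x in Ω, φ x * w k x) atTop (𝓝 (∫ x in Ω, φ x * w0 x)))
    {h : Eu n → ℝ} (hh : Integrable h (volume.restrict Ω)) :
    Tendsto (fun k => ∫ x in Ω, h x * w k x) atTop (𝓝 (∫ x in Ω, h x * w0 x)) := by
  have hA : 0 ≤ |A| := abs_nonneg A
  have hae : ∀ {u : Eu n → ℝ}, (∀ x ∈ Ω, |u x| ≤ A) → ∀ᵐ x ∂(volume.restrict Ω), ‖u x‖ ≤ |A| := by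
    intro u hu
    rw [ae_restrict_iff' hΩ.measurableSet]
    exact Eventually.of_forall fun x hx => (hu x hx).trans (le_abs_self A)
  have hint : ∀ {g u : Eu n → ℝ}, Integrable g (volume.restrict Ω) →
      AEStronglyMeasurable u (volume.restrict Ω) → (∀ x ∈ Ω, |u x| ≤ A) →
      Integrable (fun x => g x * u x) (volume.restrict Ω) := fun hg hu hb =>
    hg.mul_bdd hu (hae hb)
  have hdiff : ∀ {g φ u : Eu n → ℝ}, Integrable g (volume.restrict Ω) →
      Integrable φ (volume.restrict Ω) →
      AEStronglyMeasurable u (volume.restrict Ω) → (∀ x ∈ Ω, |u x| ≤ A) →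
      |(∫ x in Ω, g x * u x) - ∫ x in Ω, φ x * u x| ≤ |A| * ∫ x in Ω, |g x - φ x| := by
    intro g φ u hg hφ hu hb
    rw [← integral_sub (hint hg hu hb) (hint hφ hu hb), ← integral_const_mul]
    refine (abs_integral_le_integral_abs).trans ?_
    refine integral_mono_ae ((hint hg hu hb).sub (hint hφ hu hb)).abs
      ((hg.sub hφ).abs.const_mul _) ?_
    filter_upwards [hae hb] with x hx
    have : g x * u x - φ x * u x = u x * (g x - φ x) := by ring
    simp only [this, abs_mul]
    exact mul_le_mul_of_nonneg_right hx (abs_nonneg _)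
  rw [Metric.tendsto_atTop]
  intro ε hε
  obtain ⟨φ, hφ1, hφ2, hφ3, hφ4⟩ := dense_test hΩ hfin hh
    (show 0 < ε / (4 * (|A| + 1)) by positivity)
  have hφi : Integrable φ (volume.restrict Ω) :=
    (hφ1.continuous.integrable_of_hasCompactSupport hφ2).restrict
  obtain ⟨N, hN⟩ := Metric.tendsto_atTop.1 (ht φ hφ1 hφ2 hφ3) (ε / 2) (half_pos hε)
  refine ⟨N, fun k hk => ?_⟩
  have h1 := hdiff hh hφi (hm k) (hb k)
  have h2 := hdiff hh hφi hm0 hb0
  have h3 := hN k hk
  rw [Real.dist_eq] at h3 ⊢
  have h4 : |A| * ∫ x in Ω, |h x - φ x| ≤ ε / 4 := by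
    calc |A| * ∫ x in Ω, |h x - φ x| ≤ (|A| + 1) * (ε / (4 * (|A| + 1))) := by
          exact mul_le_mul (by linarith) hφ4 (integral_nonneg fun x => abs_nonneg _) (by positivity)
      _ = ε / 4 := by field_simp
  rw [abs_le] at h1 h2
  rw [abs_lt] at h3 ⊢
  constructor <;> linarith [h1.1, h1.2, h2.1, h2.2, h3.1, h3.2]

/-- weak convergence in `W^{1,p}` for all finite `p`, from pointwise convergence of the maps and
uniform bounds of the differentials -/
lemma weakConv_of_bounded {Ω : Set (Eu n)} (hΩ : IsOpen Ω) (hfin : volume Ω < ⊤)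
    {F : ℕ → Eu n → Eu n} {DF : ℕ → Eu n → (Eu n →L[ℝ] Eu n)} {f : Eu n → Eu n}
    {Df : Eu n → (Eu n →L[ℝ] Eu n)} {A : ℝ}
    (hF : ∀ k, AEStronglyMeasurable (F k) (volume.restrict Ω))
    (hf : AEStronglyMeasurable f (volume.restrict Ω))
    (hDF : ∀ k, Measurable (DF k)) (hDf : Measurable Df)
    (hFb : ∀ k, ∀ x ∈ Ω, ‖F k x‖ ≤ A) 
    (hDFb : ∀ k, ∀ x ∈ Ω, ‖DF k x‖ ≤ A) (hDfb : ∀ x ∈ Ω, ‖Df x‖ ≤ A)
    (hlim : ∀ x ∈ Ω, Tendsto (fun k => F k x) atTop (𝓝 (f x)))
    (hwF : ∀ k, IsWeakDiff Ω (F k) (DF k)) (hwf : IsWeakDiff Ω f Df) (p : ℝ≥0∞) :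
    WeakConv p Ω F DF f Df := by
  have hμ : IsFiniteMeasure (volume.restrict Ω) := ⟨by simpa using hfin⟩
  have hq : ∀ q : ℝ≥0∞, p⁻¹ + q⁻¹ = 1 → ∀ h : Eu n → Eu n, MemLp h q (volume.restrict Ω) →
      Integrable h (volume.restrict Ω) := by
    intro q hpq h hh
    have h1 : 1 ≤ q := by
      have : q⁻¹ ≤ 1 := by rw [← hpq]; exact le_add_self
      exact ENNReal.inv_le_one.1 this
    exact hh.integrable h1
  have hae : ∀ {P : Eu n → Prop}, (∀ x ∈ Ω, P x) → ∀ᵐ x ∂(volume.restrict Ω), P x := by
    intro P hP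
    rw [ae_restrict_iff' hΩ.measurableSet]
    exact Eventually.of_forall hP
  refine ⟨?_, ?_⟩
  · intro q hpq h hh
    have hi := hq q hpq h hh
    refine tendsto_integral_of_dominated_convergence (fun x => ‖h x‖ * A)
      (fun k => hh.aestronglyMeasurable.inner (hF k)) (hi.norm.mul_const A) (fun k => ?_) ?_
    · filter_upwards [hae (hFb k)] with x hx
      exact (norm_inner_le_norm _ _).trans (mul_le_mul_of_nonneg_left hx (norm_nonneg _))
    · filter_upwards [hae hlim] with x hx
      exact tendsto_const_nhds.inner hx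
  · intro v q hpq h hh
    have hi := hq q hpq h hh
    have hmk : ∀ k, Measurable fun x => DF k x v := fun k =>
      (ContinuousLinearMap.apply ℝ (Eu n) v).continuous.measurable.comp (hDF k)
    have hm0 : Measurable fun x => Df x v :=
      (ContinuousLinearMap.apply ℝ (Eu n) v).continuous.measurable.comp hDf
    have hvb : ∀ {D : Eu n → (Eu n →L[ℝ] Eu n)}, (∀ x ∈ Ω, ‖D x‖ ≤ A) →
        ∀ i, ∀ x ∈ Ω, |(D x v) i| ≤ A * ‖v‖ := by
      intro D hD i x hx
      have h1 : |(D x v) i| ≤ ‖D x v‖ := by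
        rw [← Real.norm_eq_abs]; exact PiLp.norm_apply_le _ i
      refine h1.trans (((D x).le_opNorm v).trans ?_)
      exact mul_le_mul_of_nonneg_right (hD x hx) (norm_nonneg _)
    have hcoord : ∀ i, Tendsto (fun k => ∫ x in Ω, h x i * (DF k x v) i) atTop
        (𝓝 (∫ x in Ω, h x i * (Df x v) i)) := by
      intro i
      refine weak_scalar hΩ hfin (A := A * ‖v‖) (w := fun k x => (DF k x v) i)
        (w0 := fun x => (Df x v) i) (fun k => ?_) ?_ (fun k => hvb (hDFb k) i) (hvb hDfb i) ?_ ?_
      · exact ((EuclideanSpace.proj (𝕜 := ℝ) i).continuous.measurable.comp (hmk k)).aestronglyMeasurable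
      · exact ((EuclideanSpace.proj (𝕜 := ℝ) i).continuous.measurable.comp hm0).aestronglyMeasurable
      · intro φ hφ1 hφ2 hφ3
        -- reduce to the weak differential identity
        have hφi : Integrable φ (volume.restrict Ω) :=
          (hφ1.continuous.integrable_of_hasCompactSupport hφ2).restrict
        have hi1 : ∀ {u : Eu n → Eu n}, Measurable u → (∀ x ∈ Ω, ‖u x‖ ≤ |A| * ‖v‖) →
            Integrable (fun x => φ x • u x) (volume.restrict Ω) := by
          intro u hu hub
          refine Integrable.mono' (hφi.norm.mul_const (|A| * ‖v‖))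
            (hφ1.continuous.aestronglyMeasurable.smul hu.aestronglyMeasurable) ?_
          filter_upwards [hae hub] with x hx
          rw [norm_smul]
          exact mul_le_mul_of_nonneg_left hx (norm_nonneg _)
        have hvb' : ∀ {D : Eu n → (Eu n →L[ℝ] Eu n)}, (∀ x ∈ Ω, ‖D x‖ ≤ A) →
            ∀ x ∈ Ω, ‖D x v‖ ≤ |A| * ‖v‖ := by
          intro D hD x hx
          refine ((D x).le_opNorm v).trans ?_
          exact mul_le_mul_of_nonneg_right ((hD x hx).trans (le_abs_self A)) (norm_nonneg _)
        have e1 : ∀ k, ∫ x in Ω, φ x * (DF k x v) i = - (∫ x in Ω, (fderiv ℝ φ x v) • F k x) i := by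
          intro k
          have := hwF k φ hφ1 hφ2 hφ3 v
          rw [this]
          have h2 := (EuclideanSpace.proj (𝕜 := ℝ) i).integral_comp_comm (hi1 (hmk k) (hvb' (hDFb k)))
          rw [PiLp.neg_apply, neg_neg]
          exact h2
        have e2 : ∫ x in Ω, φ x * (Df x v) i = - (∫ x in Ω, (fderiv ℝ φ x v) • f x) i := by
          have := hwf φ hφ1 hφ2 hφ3 v
          rw [this]
          have h2 := (EuclideanSpace.proj (𝕜 := ℝ) i).integral_comp_comm (hi1 hm0 (hvb' hDfb))
          rw [PiLp.neg_apply, neg_neg]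
          exact h2
        simp only [e1, e2]
        have hcont : Continuous (fun x => fderiv ℝ φ x v) :=
          (hφ1.continuous_fderiv (by simp)).clm_apply continuous_const
        have hcs : HasCompactSupport (fun x => fderiv ℝ φ x v) := by
          have := hφ2.fderiv (𝕜 := ℝ)
          exact this.comp_left (g := fun A : Eu n →L[ℝ] ℝ => A v) (by simp)
        have hdi : Integrable (fun x => fderiv ℝ φ x v) (volume.restrict Ω) :=
          (hcont.integrable_of_hasCompactSupport hcs).restrict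
        have hT : Tendsto (fun k => ∫ x in Ω, (fderiv ℝ φ x v) • F k x) atTop
            (𝓝 (∫ x in Ω, (fderiv ℝ φ x v) • f x)) := by
          refine tendsto_integral_of_dominated_convergence (fun x => ‖fderiv ℝ φ x v‖ * A)
            (fun k => hcont.aestronglyMeasurable.smul (hF k)) (hdi.norm.mul_const A) (fun k => ?_) ?_
          · filter_upwards [hae (hFb k)] with x hx
            rw [norm_smul]
            exact mul_le_mul_of_nonneg_left hx (norm_nonneg _)
          · filter_upwards [hae hlim] with x hx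
            exact tendsto_const_nhds.smul hx
        exact (((EuclideanSpace.proj (𝕜 := ℝ) i).continuous.tendsto _).comp hT).neg
      · exact (EuclideanSpace.proj (𝕜 := ℝ) i).integrable_comp hi
    -- sum over coordinates
    have hsum : ∀ {D : Eu n → (Eu n →L[ℝ] Eu n)}, Measurable (fun x => D x v) → (∀ x ∈ Ω, ‖D x‖ ≤ A) →
        ∫ x in Ω, ⟪h x, D x v⟫_ℝ = ∑ i, ∫ x in Ω, h x i * (D x v) i := by
      intro D hDm hD
      rw [← integral_finsetSum]
      · refine integral_congr_ae (Eventually.of_forall fun x => ?_)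
        simp only [PiLp.inner_apply, RCLike.inner_apply, conj_trivial]
        exact Finset.sum_congr rfl fun i _ => mul_comm _ _
      · intro i _
        refine ((EuclideanSpace.proj (𝕜 := ℝ) i).integrable_comp hi).mul_bdd (c := A * ‖v‖) ?_ ?_
        · exact ((EuclideanSpace.proj (𝕜 := ℝ) i).continuous.measurable.comp hDm).aestronglyMeasurable
        · filter_upwards [hae (hvb hD i)] with x hx
          exact hx
    rw [hsum hm0 hDfb]
    simp only [fun k => hsum (hmk k) (hDFb k)]
    exact tendsto_finsetSum _ fun i _ => hcoord i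

end

end Pool.Agent.U590.WS
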