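import Pool.Agent.U590.WS.Plane2
import Pool.Agent.U590.WS.Weak2

/-! The domains and the homeomorphisms in `ℝ^{m+3}`. -/

open Complex Set Filter Topology Metric
open scoped Real NNReal

namespace Pool.Agent.U590.WS

noncomputable section

variable {m : ℕ}

/-- the planar part (coordinates 1 and 2) -/
def W (z : Eu (m + 3)) : ℂ := ⟨z 1, z 2⟩

/-- replace the planar part -/
def put (z : Eu (m + 3)) (w : ℂ) : Eu (m + 3) :=
  WithLp.toLp 2 (fun i => if i = 1 then w.re else if i = 2 then w.im else z i)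

lemma put_apply (z : Eu (m + 3)) (w : ℂ) (i : Fin (m + 3)) :
    put z w i = if i = 1 then w.re else if i = 2 then w.im else z i := rfl

lemma fin_val_one : ((1 : Fin (m + 3)) : ℕ) = 1 := by
  rw [Fin.val_one']; exact Nat.mod_eq_of_lt (by omega)

lemma one_ne_two' : (2 : Fin (m + 3)) ≠ 1 := by
  intro h
  have := congrArg Fin.val h
  rw [fin_val_one, Fin.val_two] at this
  simp at this

@[simp] lemma W_put (z : Eu (m + 3)) (w : ℂ) : W (put z w) = w := by
  apply Complex.ext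
  · show put z w 1 = w.re
    simp [put_apply]
  · show put z w 2 = w.im
    rw [put_apply, if_neg one_ne_two', if_pos rfl]

@[simp] lemma put_W (z : Eu (m + 3)) : put z (W z) = z := by
  ext i
  rw [put_apply]
  split_ifs with h1 h2
  · subst h1; rfl
  · subst h2; rfl
  · rfl

@[simp] lemma put_put (z : Eu (m + 3)) (a b : ℂ) : put (put z a) b = put z b := by
  ext i
  simp only [put_apply]
  split_ifs <;> rfl

lemma zero_ne_one' : (0 : Fin (m + 3)) ≠ 1 := by
  intro h
  have := congrArg Fin.val h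
  simp at this

lemma zero_ne_two' : (0 : Fin (m + 3)) ≠ 2 := by
  intro h
  have := congrArg Fin.val h
  rw [Fin.val_two] at this
  simp at this

@[simp] lemma put_zero (z : Eu (m + 3)) (w : ℂ) : put z w 0 = z 0 := by
  rw [put_apply, if_neg zero_ne_one', if_neg zero_ne_two']

lemma put_ge (z : Eu (m + 3)) (w : ℂ) {i : Fin (m + 3)} (hi : 3 ≤ i.val) : put z w i = z i := by
  rw [put_apply, if_neg, if_neg]
  · intro h; rw [h, Fin.val_two] at hi; omega
  · intro h; rw [h, fin_val_one] at hi; omega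

lemma W_sub (z z' : Eu (m + 3)) : W (z - z') = W z - W z' := by
  apply Complex.ext <;> simp [W]

lemma put_sub (z z' : Eu (m + 3)) (w w' : ℂ) : put z w - put z' w' = put (z - z') (w - w') := by
  ext i
  simp only [PiLp.sub_apply, put_apply]
  split_ifs <;> simp

lemma norm_sq_eq (z : Eu (m + 3)) : ‖z‖ ^ 2 = ∑ i, (z i) ^ 2 := by
  rw [EuclideanSpace.norm_sq_eq]
  simp

lemma norm_W_le (z : Eu (m + 3)) : ‖W z‖ ≤ ‖z‖ := by
  rw [← abs_of_nonneg (norm_nonneg (W z)), ← abs_of_nonneg (norm_nonneg z), ← sq_le_sq,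
    norm_sq_eq, Complex.sq_norm, Complex.normSq_apply]
  have h : ∑ i ∈ ({1, 2} : Finset (Fin (m + 3))), (z i) ^ 2 ≤ ∑ i, (z i) ^ 2 :=
    Finset.sum_le_sum_of_subset_of_nonneg (Finset.subset_univ _) fun i _ _ => sq_nonneg _
  rw [Finset.sum_pair (fun h => one_ne_two' h.symm)] at h
  simp only [W]
  linarith [h]

lemma norm_put_le (z : Eu (m + 3)) (w : ℂ) : ‖put z w‖ ≤ ‖z‖ + ‖w‖ := by
  have h1 : ‖put z w‖ ^ 2 ≤ ‖z‖ ^ 2 + ‖w‖ ^ 2 := by
    rw [norm_sq_eq, norm_sq_eq, Complex.sq_norm, Complex.normSq_apply]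
    have h2 : ∑ i, (put z w i) ^ 2 ≤ ∑ i, ((z i) ^ 2 + ((if i = 1 then w.re ^ 2 else 0) +
        (if i = 2 then w.im ^ 2 else 0))) := by
      refine Finset.sum_le_sum fun i _ => ?_
      rw [put_apply]
      split_ifs <;> nlinarith [sq_nonneg (z i), sq_nonneg w.re, sq_nonneg w.im]
    refine h2.trans ?_
    rw [Finset.sum_add_distrib, Finset.sum_add_distrib]
    simp only [Finset.sum_ite_eq', Finset.mem_univ, if_true]
    linarith
  have h3 : 0 ≤ ‖z‖ + ‖w‖ := by positivity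
  refine abs_le_of_sq_le_sq' ?_ h3 |>.2
  nlinarith [norm_nonneg z, norm_nonneg w]

/-- amplitude of the oscillation over the real part `u` -/
def amp (u : ℝ) : ℝ :=
  open Classical in
  if h : ∃ j : ℕ, 1 ≤ j ∧ |u - (1 / 10) ^ j| < (1 / 10) ^ (j + 1) then (1 / 10) ^ (h.choose) else 0

lemma amp_eq {j : ℕ} (hj : 1 ≤ j) {u : ℝ} (h : |u - (1 / 10) ^ j| < (1 / 10) ^ (j + 1)) :
    amp u = (1 / 10) ^ j := by
  have hex : ∃ j : ℕ, 1 ≤ j ∧ |u - (1 / 10) ^ j| < (1 / 10) ^ (j + 1) := ⟨j, hj, h⟩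
  rw [amp, dif_pos hex]
  congr 1
  exact sq_disj hex.choose_spec.2 h

lemma amp_zero : amp 0 = 0 := by
  rw [amp, dif_neg]
  rintro ⟨j, -, h⟩
  have hp := pow_pos10 j
  rw [abs_lt, pow_succ] at h
  linarith [h.1]

/-- the oscillation -/
def psi (x u : ℝ) : ℝ := amp u * Real.sin (10 * max x 0 / amp u)

lemma psi_neg {x : ℝ} (hx : x ≤ 0) (u : ℝ) : psi x u = 0 := by
  rw [psi, max_eq_right hx]; simp

/-- the shear -/
def Sh (z : Eu (m + 3)) : Eu (m + 3) := put z (W z + I * (psi (z 0) (W z).re : ℂ))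

/-- the inverse shear -/
def Shi (z : Eu (m + 3)) : Eu (m + 3) := put z (W z - I * (psi (z 0) (W z).re : ℂ))

lemma re_add_I (w : ℂ) (t : ℝ) : (w + I * (t : ℂ)).re = w.re := by simp
lemma re_sub_I (w : ℂ) (t : ℝ) : (w - I * (t : ℂ)).re = w.re := by simp

lemma Shi_Sh (z : Eu (m + 3)) : Shi (Sh z) = z := by
  simp only [Shi, Sh, put_put, W_put, put_zero, re_add_I]
  simp

lemma Sh_Shi (z : Eu (m + 3)) : Sh (Shi z) = z := by
  simp only [Shi, Sh, put_put, W_put, put_zero, re_sub_I]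
  simp

/-- the common conditions on the other coordinates -/
def Side (z : Eu (m + 3)) : Prop := (-1 < z 0 ∧ z 0 < 1) ∧ ∀ i : Fin (m + 3), 3 ≤ i.val → 0 < z i ∧ z i < 1

lemma side_put (z : Eu (m + 3)) (w : ℂ) : Side (put z w) ↔ Side z := by
  unfold Side
  rw [put_zero]
  refine and_congr Iff.rfl (forall_congr' fun i => ?_)
  constructor
  · intro h hi; rw [← put_ge z w hi]; exact h hi
  · intro h hi; rw [put_ge z w hi]; exact h hi

/-- the straight target -/
def OmS (m : ℕ) : Set (Eu (m + 3)) :=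
  {z | Side z ∧ ((z 0 < 0 ∧ ‖W z‖ < 1) ∨ ∃ j, 1 ≤ j ∧ W z ∈ sq j)}

/-- the target -/
def OmT (m : ℕ) : Set (Eu (m + 3)) := Shi ⁻¹' (OmS m)

/-- the source -/
def Om (m : ℕ) : Set (Eu (m + 3)) :=
  {z | Side z ∧ ((z 0 < 0 ∧ dd (W z) < 1) ∨ ∃ j, W z ∈ src j)}

/-- the planar homeomorphism with index `k` -/
def hk (k : ℕ) : ℂ → ℂ := hh ((1 / 10) ^ (k + 1))

/-- the homeomorphisms -/
def F (m k : ℕ) (z : Eu (m + 3)) : Eu (m + 3) := Sh (put z (hk k (W z)))

/-- their inverses -/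
def Fi (m k : ℕ) (z : Eu (m + 3)) : Eu (m + 3) :=
  put (Shi z) (hhi ((1 / 10) ^ (k + 1)) (W (Shi z)))

/-- the limit -/
def f0 (m : ℕ) (z : Eu (m + 3)) : Eu (m + 3) := Sh (put z (h0 (W z)))

lemma ek_le (k : ℕ) : ((1 : ℝ) / 10) ^ (k + 1) ≤ 1 / 10 := by
  have := pow_le10 k
  rw [pow_succ]; linarith

lemma mem_OmS_iff (k : ℕ) (z : Eu (m + 3)) : put z (hk k (W z)) ∈ OmS m ↔ z ∈ Om m := by
  simp only [OmS, Om, mem_ofPred_eq, side_put, put_zero, W_put]
  refine and_congr Iff.rfl (or_congr (and_congr Iff.rfl ?_) ?_)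
  · exact norm_hh_lt_one (pow_pos10 _) (ek_le k) _
  · exact hh_holes (by omega) _

lemma F_mem_iff (k : ℕ) (z : Eu (m + 3)) : F m k z ∈ OmT m ↔ z ∈ Om m := by
  rw [OmT, mem_preimage, F, Shi_Sh, mem_OmS_iff]

lemma Fi_F (k : ℕ) (z : Eu (m + 3)) : Fi m k (F m k z) = z := by
  rw [Fi, F, Shi_Sh, W_put, hk, hhi_hh (pow_pos10 _) (pow_le10 _), put_put, put_W]

lemma F_Fi (k : ℕ) (z : Eu (m + 3)) : F m k (Fi m k z) = z := by
  rw [Fi, F, W_put, hk, hh_hhi (pow_pos10 _) (pow_le10 _), put_put, put_W, Sh_Shi]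

lemma Fi_mem {k : ℕ} {z : Eu (m + 3)} (hz : z ∈ OmT m) : Fi m k z ∈ Om m := by
  rw [← F_mem_iff k, F_Fi]; exact hz

lemma bijOn_F (k : ℕ) : BijOn (F m k) (Om m) (OmT m) := by
  refine ⟨fun z hz => (F_mem_iff k z).2 hz, fun z _ z' _ h => ?_, fun z hz => ?_⟩
  · rw [← Fi_F k z, ← Fi_F k z', h]
  · exact ⟨Fi m k z, Fi_mem hz, F_Fi k z⟩

lemma invOn_F (k : ℕ) : InvOn (Fi m k) (F m k) (Om m) (OmT m) :=
  ⟨fun z _ => Fi_F k z, fun z _ => F_Fi k z⟩

/-! ### continuity -/

lemma continuous_W : Continuous (W : Eu (m + 3) → ℂ) := by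
  have h1 : Continuous fun z : Eu (m + 3) => (z 1 : ℝ) := by fun_prop
  have h2 : Continuous fun z : Eu (m + 3) => (z 2 : ℝ) := by fun_prop
  have : (W : Eu (m + 3) → ℂ) = fun z => ((z 1 : ℝ) : ℂ) + ((z 2 : ℝ) : ℂ) * I := by
    ext z; apply Complex.ext <;> simp [W]
  rw [this]
  exact (continuous_ofReal.comp h1).add ((continuous_ofReal.comp h2).mul continuous_const)

lemma continuous_coord (i : Fin (m + 3)) : Continuous fun z : Eu (m + 3) => (z i : ℝ) := by fun_prop

lemma put_continuousAt {X : Type*} [TopologicalSpace X] {a : X → Eu (m + 3)} {b : X → ℂ} {x : X}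
    (ha : ContinuousAt a x) (hb : ContinuousAt b x) : ContinuousAt (fun x => put (a x) (b x)) x := by
  rw [ContinuousAt, tendsto_iff_norm_sub_tendsto_zero]
  have h1 : Tendsto (fun y => ‖a y - a x‖ + ‖b y - b x‖) (𝓝 x) (𝓝 (0 + 0)) :=
    (tendsto_iff_norm_sub_tendsto_zero.1 ha).add (tendsto_iff_norm_sub_tendsto_zero.1 hb)
  rw [add_zero] at h1
  refine squeeze_zero (fun y => norm_nonneg _) (fun y => ?_) h1
  rw [put_sub]; exact norm_put_le _ _

lemma continuous_put {X : Type*} [TopologicalSpace X] {a : X → Eu (m + 3)} {b : X → ℂ}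
    (ha : Continuous a) (hb : Continuous b) : Continuous (fun x => put (a x) (b x)) :=
  continuous_iff_continuousAt.2 fun _ => put_continuousAt ha.continuousAt hb.continuousAt

/-- the oscillation is continuous near admissible points -/
lemma psi_continuousAt {z : Eu (m + 3)} (h : z 0 < 0 ∨ ∃ j, 1 ≤ j ∧ |(W z).re - (1 / 10) ^ j| < (1 / 10) ^ (j + 1)) :
    ContinuousAt (fun z : Eu (m + 3) => psi (z 0) (W z).re) z := by
  rcases h with h | ⟨j, hj, h⟩
  · have : (fun z : Eu (m + 3) => psi (z 0) (W z).re) =ᶠ[𝓝 z] fun _ => 0 := by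
      filter_upwards [(isOpen_lt (continuous_coord 0) continuous_const).mem_nhds h] with y hy
      exact psi_neg (le_of_lt hy) _
    exact continuousAt_const.congr this.symm
  · have hre : Continuous fun z : Eu (m + 3) => |(W z).re - (1 / 10) ^ j| :=
      ((continuous_re.comp continuous_W).sub continuous_const).abs
    have : (fun z : Eu (m + 3) => psi (z 0) (W z).re) =ᶠ[𝓝 z]
        fun z => (1 / 10) ^ j * Real.sin (10 * max (z 0) 0 / (1 / 10) ^ j) := by
      filter_upwards [(isOpen_lt hre continuous_const).mem_nhds h] with y hy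
      rw [psi, amp_eq hj hy]
    refine ContinuousAt.congr ?_ this.symm
    apply Continuous.continuousAt
    have := continuous_coord (m := m) 0
    fun_prop

lemma adm_OmS {z : Eu (m + 3)} (hz : z ∈ OmS m) :
    z 0 < 0 ∨ ∃ j, 1 ≤ j ∧ |(W z).re - (1 / 10) ^ j| < (1 / 10) ^ (j + 1) := by
  rcases hz.2 with h | ⟨j, hj, h⟩
  · exact Or.inl h.1
  · exact Or.inr ⟨j, hj, h.1⟩

lemma adm_OmT {z : Eu (m + 3)} (hz : z ∈ OmT m) :
    z 0 < 0 ∨ ∃ j, 1 ≤ j ∧ |(W z).re - (1 / 10) ^ j| < (1 / 10) ^ (j + 1) := by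
  have := adm_OmS hz
  simp only [Shi, put_zero, W_put, re_sub_I] at this
  exact this

lemma Sh_continuousAt {z : Eu (m + 3)} (hz : z ∈ OmS m) : ContinuousAt Sh z :=
  put_continuousAt continuousAt_id (continuous_W.continuousAt.add
    (continuousAt_const.mul (continuous_ofReal.continuousAt.comp (psi_continuousAt (adm_OmS hz)))))

lemma Shi_continuousAt {z : Eu (m + 3)} (hz : z ∈ OmT m) : ContinuousAt Shi z :=
  put_continuousAt continuousAt_id (continuous_W.continuousAt.sub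
    (continuousAt_const.mul (continuous_ofReal.continuousAt.comp (psi_continuousAt (adm_OmT hz)))))

lemma continuous_hk (k : ℕ) : Continuous (hk k) := hh_continuous (pow_pos10 _) (pow_le10 _)

lemma continuous_hhi {e : ℝ} (he : 0 < e) (he1 : e ≤ 1) : Continuous (hhi e) :=
  (hhHomeo he he1).symm.continuous

lemma F_continuousOn (k : ℕ) : ContinuousOn (F m k) (Om m) := by
  intro z hz
  have h1 : Continuous fun z : Eu (m + 3) => put z (hk k (W z)) :=
    continuous_put continuous_id ((continuous_hk k).comp continuous_W)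
  have h2 : ContinuousAt Sh ((fun z : Eu (m + 3) => put z (hk k (W z))) z) :=
    Sh_continuousAt ((mem_OmS_iff k z).2 hz)
  exact (ContinuousAt.comp (f := fun z : Eu (m + 3) => put z (hk k (W z))) h2
    h1.continuousAt).continuousWithinAt

lemma Fi_continuousOn (k : ℕ) : ContinuousOn (Fi m k) (OmT m) := by
  intro z hz
  have h1 := Shi_continuousAt hz
  exact (put_continuousAt h1 ((continuous_hhi (pow_pos10 _) (pow_le10 _)).continuousAt.comp
    (continuous_W.continuousAt.comp h1))).continuousWithinAt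

lemma isHomeo_F (k : ℕ) : IsHomeo (Om m) (OmT m) (F m k) :=
  ⟨bijOn_F k, F_continuousOn k, Fi m k, invOn_F k, Fi_continuousOn k⟩

/-! ### topology of the domains -/

lemma isOpen_side : IsOpen {z : Eu (m + 3) | Side z} := by
  unfold Side
  have h1 : IsOpen {z : Eu (m + 3) | -1 < z 0 ∧ z 0 < 1} :=
    (isOpen_lt continuous_const (continuous_coord 0)).inter
      (isOpen_lt (continuous_coord 0) continuous_const)
  have h2 : IsOpen {z : Eu (m + 3) | ∀ i : Fin (m + 3), 3 ≤ i.val → 0 < z i ∧ z i < 1} := by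
    have : {z : Eu (m + 3) | ∀ i : Fin (m + 3), 3 ≤ i.val → 0 < z i ∧ z i < 1} =
        ⋂ i : Fin (m + 3), {z | 3 ≤ i.val → 0 < z i ∧ z i < 1} := by
      ext z; simp
    rw [this]
    refine isOpen_iInter_of_finite fun i => ?_
    by_cases hi : 3 ≤ i.val
    · simp only [hi, forall_const]
      exact (isOpen_lt continuous_const (continuous_coord i)).inter
        (isOpen_lt (continuous_coord i) continuous_const)
    · simp [hi]
  exact h1.inter h2

lemma isOpen_OmS : IsOpen (OmS m) := by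
  refine isOpen_side.inter (IsOpen.union ?_ ?_)
  · exact (isOpen_lt (continuous_coord 0) continuous_const).inter
      (isOpen_lt continuous_W.norm continuous_const)
  · have : {z : Eu (m + 3) | ∃ j, 1 ≤ j ∧ W z ∈ sq j} = ⋃ j, ⋃ (_ : 1 ≤ j), W ⁻¹' (sq j) := by
      ext z; simp
    show IsOpen {z : Eu (m + 3) | ∃ j, 1 ≤ j ∧ W z ∈ sq j}
    rw [this]
    exact isOpen_iUnion fun j => isOpen_iUnion fun _ => (isOpen_sq j).preimage continuous_W

lemma isOpen_OmT : IsOpen (OmT m) := by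
  rw [isOpen_iff_mem_nhds]
  intro z hz
  exact (Shi_continuousAt hz).preimage_mem_nhds (isOpen_OmS.mem_nhds hz)

lemma continuous_id_hk (k : ℕ) : Continuous fun z : Eu (m + 3) => put z (hk k (W z)) :=
  continuous_put continuous_id ((continuous_hk k).comp continuous_W)

lemma isOpen_Om : IsOpen (Om m) := by
  have : Om m = (fun z => put z (hk 0 (W z))) ⁻¹' (OmS m) := by
    ext z; exact (mem_OmS_iff 0 z).symm
  rw [this]
  exact isOpen_OmS.preimage (continuous_id_hk 0)

end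

end Pool.Agent.U590.WS
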