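import Pool.Agent.U590.WS.Domain

/-! Boundedness, connectedness, Lipschitz bounds, convergence. -/

open Complex Set Filter Topology Metric MeasureTheory
open scoped Real NNReal ENNReal

namespace Pool.Agent.U590.WS

noncomputable section

variable {m : ℕ}

/-! ### boundedness -/

lemma norm_le_of_coord {z : Eu (m + 3)} (h : ∀ i, |z i| ≤ 5) : ‖z‖ ≤ 5 * (m + 3) := by
  have h1 : ‖z‖ ^ 2 ≤ 25 * (m + 3) := by
    rw [norm_sq_eq]
    have : ∑ i : Fin (m + 3), (z i) ^ 2 ≤ ∑ _i : Fin (m + 3), (25 : ℝ) := by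
      refine Finset.sum_le_sum fun i _ => ?_
      have := h i
      nlinarith [abs_nonneg (z i), sq_abs (z i)]
    refine this.trans ?_
    rw [Finset.sum_const, Finset.card_univ, Fintype.card_fin, nsmul_eq_mul]
    push_cast; linarith
  have h2 : (0 : ℝ) ≤ m := Nat.cast_nonneg m
  nlinarith [norm_nonneg z]

lemma coord_bound {z : Eu (m + 3)} (h1 : Side z) (h2 : ‖W z‖ ≤ 5) (i : Fin (m + 3)) : |z i| ≤ 5 := by
  by_cases hi1 : i = 1
  · subst hi1
    exact (Complex.abs_re_le_norm (W z)).trans h2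
  by_cases hi2 : i = 2
  · subst hi2
    exact (Complex.abs_im_le_norm (W z)).trans h2
  by_cases hi0 : i = 0
  · subst hi0
    rw [abs_le]; constructor <;> linarith [h1.1.1, h1.1.2]
  · have hi : 3 ≤ i.val := by
      by_contra hlt
      have h0 : i.val ≠ 0 := fun h => hi0 (Fin.ext h)
      have h1' : i.val ≠ 1 := fun h => hi1 (Fin.ext (by rw [fin_val_one]; exact h))
      have h2' : i.val ≠ 2 := fun h => hi2 (Fin.ext (by rw [Fin.val_two]; exact h))
      omega
    have := h1.2 i hi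
    rw [abs_le]; constructor <;> linarith [this.1, this.2]

lemma W_bound_Om {z : Eu (m + 3)} (hz : z ∈ Om m) : ‖W z‖ ≤ 5 := by
  rcases hz.2 with h | ⟨j, h⟩
  · have : ‖W z‖ - 3 ≤ dd (W z) := le_max_right _ _
    linarith [h.2]
  · unfold src at h
    split_ifs at h with hj
    · linarith [(B0_geom h).2.1]
    · linarith [(sq_norm h).2, pow_le10 j]

lemma bdd_Om : Bornology.IsBounded (Om m) := by
  refine (Metric.isBounded_closedBall (x := (0 : Eu (m + 3))) (r := 5 * (m + 3))).subset fun z hz => ?_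
  rw [mem_closedBall_zero_iff]
  exact norm_le_of_coord (coord_bound hz.1 (W_bound_Om hz))

lemma abs_amp_le (u : ℝ) : 0 ≤ amp u ∧ amp u ≤ 1 := by
  unfold amp
  split_ifs with h
  · exact ⟨by positivity, pow_le10 _⟩
  · exact ⟨le_rfl, zero_le_one⟩

lemma abs_psi_le (x u : ℝ) : |psi x u| ≤ amp u := by
  rw [psi, abs_mul, abs_of_nonneg (abs_amp_le u).1]
  exact mul_le_of_le_one_right (abs_amp_le u).1 (Real.abs_sin_le_one _)

lemma W_bound_OmT {z : Eu (m + 3)} (hz : z ∈ OmT m) : ‖W z‖ ≤ 5 := by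
  have hz' : Shi z ∈ OmS m := hz
  have h1 : ‖W (Shi z)‖ ≤ 2 := by
    rcases hz'.2 with h | ⟨j, -, h⟩
    · linarith [h.2]
    · linarith [(sq_norm h).2, pow_le10 j]
  have h2 : W z = W (Shi z) + I * (psi (z 0) (W z).re : ℂ) := by
    simp [Shi]
  rw [h2]
  refine (norm_add_le _ _).trans ?_
  have h3 : ‖I * (psi (z 0) (W z).re : ℂ)‖ ≤ 1 := by
    rw [norm_mul, norm_I, one_mul, norm_real]
    exact (abs_psi_le _ _).trans (abs_amp_le _).2
  linarith

lemma side_OmT {z : Eu (m + 3)} (hz : z ∈ OmT m) : Side z := by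
  have : Side (Shi z) := hz.1
  rwa [Shi, side_put] at this

lemma norm_OmT {z : Eu (m + 3)} (hz : z ∈ OmT m) : ‖z‖ ≤ 5 * (m + 3) :=
  norm_le_of_coord (coord_bound (side_OmT hz) (W_bound_OmT hz))

lemma bdd_OmT : Bornology.IsBounded (OmT m) := by
  refine (Metric.isBounded_closedBall (x := (0 : Eu (m + 3))) (r := 5 * (m + 3))).subset fun z hz => ?_
  rw [mem_closedBall_zero_iff]
  exact norm_OmT hz

/-! ### connectedness -/

lemma W_comb (x y : Eu (m + 3)) (a b : ℝ) : W (a • x + b • y) = (a : ℂ) * W x + (b : ℂ) * W y := by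
  apply Complex.ext <;> simp [W]

lemma convex_side : Convex ℝ {z : Eu (m + 3) | Side z} := by
  intro x hx y hy a b ha hb hab
  refine ⟨?_, fun i hi => ?_⟩
  · have := (convex_Ioo (-1 : ℝ) 1) hx.1 hy.1 ha hb hab
    simpa using this
  · have := (convex_Ioo (0 : ℝ) 1) (hx.2 i hi) (hy.2 i hi) ha hb hab
    simpa using this

lemma convex_box : Convex ℝ {z : Eu (m + 3) | Side z ∧ z 0 < 0 ∧ ‖W z‖ < 1} := by
  intro x hx y hy a b ha hb hab
  refine ⟨convex_side hx.1 hy.1 ha hb hab, ?_, ?_⟩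
  · have := (convex_Iio (0 : ℝ)) hx.2.1 hy.2.1 ha hb hab
    simpa using this
  · rw [W_comb]
    have := (convex_ball (0 : ℂ) 1) (mem_ball_zero_iff.2 hx.2.2) (mem_ball_zero_iff.2 hy.2.2) ha hb hab
    simpa using this

lemma convex_tube (j : ℕ) : Convex ℝ {z : Eu (m + 3) | Side z ∧ W z ∈ sq j} := by
  intro x hx y hy a b ha hb hab
  refine ⟨convex_side hx.1 hy.1 ha hb hab, ?_⟩
  rw [W_comb]
  have h1 := (convex_ball ((1 / 10 : ℝ) ^ j) ((1 / 10) ^ (j + 1)))
    (show (W x).re ∈ _ by rw [mem_ball, Real.dist_eq]; exact hx.2.1)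
    (show (W y).re ∈ _ by rw [mem_ball, Real.dist_eq]; exact hy.2.1) ha hb hab
  have h2 := (convex_ball (0 : ℝ) ((1 / 10) ^ (j + 1)))
    (show (W x).im ∈ _ by rw [mem_ball, Real.dist_eq, sub_zero]; exact hx.2.2)
    (show (W y).im ∈ _ by rw [mem_ball, Real.dist_eq, sub_zero]; exact hy.2.2) ha hb hab
  rw [mem_ball, Real.dist_eq] at h1 h2
  rw [sub_zero] at h2
  refine ⟨?_, ?_⟩
  · rw [add_re, re_ofReal_mul, re_ofReal_mul]; exact h1
  · rw [add_im, im_ofReal_mul, im_ofReal_mul]; exact h2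

/-- a reference point -/
def ref (w : ℂ) : Eu (m + 3) := put (WithLp.toLp 2 fun i => if i = 0 then -(1 / 2) else 1 / 2) w

lemma ref_zero (w : ℂ) : (ref w : Eu (m + 3)) 0 = -(1 / 2) := by
  rw [ref, put_zero]
  show (if (0 : Fin (m + 3)) = 0 then (-(1 / 2) : ℝ) else 1 / 2) = _
  simp

lemma ref_side (w : ℂ) : Side (ref w : Eu (m + 3)) := by
  refine ⟨?_, fun i hi => ?_⟩
  · rw [ref_zero]; norm_num
  · rw [ref, put_ge _ _ hi]
    have h0 : i ≠ 0 := by intro h; rw [h] at hi; simp at hi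
    show 0 < (if i = 0 then (-(1 / 2) : ℝ) else 1 / 2) ∧ (if i = 0 then (-(1 / 2) : ℝ) else 1 / 2) < 1
    rw [if_neg h0]; norm_num

lemma isConnected_OmS : IsConnected (OmS m) := by
  have hb0 : ∀ z : Eu (m + 3), (Side z ∧ z 0 < 0 ∧ ‖W z‖ < 1) → z ∈ OmS m :=
    fun z h => ⟨h.1, Or.inl h.2⟩
  have href : ∀ w : ℂ, ‖w‖ < 1 → (Side (ref w : Eu (m + 3)) ∧ (ref w : Eu (m + 3)) 0 < 0 ∧
      ‖W (ref w : Eu (m + 3))‖ < 1) := by
    intro w hw
    refine ⟨ref_side w, ?_, ?_⟩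
    · rw [ref_zero]; norm_num
    · rw [ref, W_put]; exact hw
  have h0 := href 0 (by simp)
  refine ⟨⟨ref 0, hb0 _ h0⟩, ?_⟩
  refine isPreconnected_of_forall (ref 0) fun y hy => ?_
  rcases hy.2 with h | ⟨j, hj, h⟩
  · exact ⟨_, fun z hz => hb0 z hz, h0, ⟨hy.1, h⟩, convex_box.isPreconnected⟩
  · refine ⟨{z | Side z ∧ z 0 < 0 ∧ ‖W z‖ < 1} ∪ {z | Side z ∧ W z ∈ sq j}, ?_, Or.inl h0,
      Or.inr ⟨hy.1, h⟩, ?_⟩
    · rintro z (hz | hz)
      · exact hb0 z hz
      · exact ⟨hz.1, Or.inr ⟨j, hj, hz.2⟩⟩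
    · refine IsPreconnected.union (ref (((1 / 10 : ℝ) ^ j : ℝ) : ℂ)) ?_ ?_
        convex_box.isPreconnected (convex_tube j).isPreconnected
      · refine href _ ?_
        rw [norm_real, Real.norm_eq_abs, abs_of_pos (pow_pos10 j)]
        exact pow_lt_one₀ (by norm_num) (by norm_num) (by omega)
      · refine ⟨ref_side _, ?_⟩
        rw [ref, W_put]
        refine ⟨?_, ?_⟩
        · rw [ofReal_re, sub_self, abs_zero]; positivity
        · rw [ofReal_im, abs_zero]; positivity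

lemma isConnected_OmT : IsConnected (OmT m) := by
  have : OmT m = Sh '' (OmS m) := by
    ext z
    constructor
    · intro hz; exact ⟨Shi z, hz, Sh_Shi z⟩
    · rintro ⟨y, hy, rfl⟩
      show Shi (Sh y) ∈ OmS m
      rw [Shi_Sh]; exact hy
  rw [this]
  exact isConnected_OmS.image _ fun z hz => (Sh_continuousAt hz).continuousWithinAt

lemma isConnected_Om : IsConnected (Om m) := by
  have : Om m = Fi m 0 '' (OmT m) := by
    ext z
    constructor
    · intro hz; exact ⟨F m 0 z, (F_mem_iff 0 z).2 hz, Fi_F 0 z⟩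
    · rintro ⟨y, hy, rfl⟩
      exact Fi_mem hy
  rw [this]
  exact isConnected_OmT.image _ (Fi_continuousOn 0)

/-! ### Lipschitz bounds -/

lemma sin_lip (a s t : ℝ) (ha : 0 ≤ a) :
    |a * Real.sin (10 * s / a) - a * Real.sin (10 * t / a)| ≤ 10 * |s - t| := by
  rcases ha.eq_or_lt with rfl | ha
  · simp
  rw [← mul_sub, abs_mul, abs_of_pos ha]
  have h1 : |Real.sin (10 * s / a) - Real.sin (10 * t / a)| ≤ |10 * s / a - 10 * t / a| := by
    have := Real.lipschitzWith_sin.dist_le_mul (10 * s / a) (10 * t / a)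
    simpa [Real.dist_eq] using this
  calc a * |Real.sin (10 * s / a) - Real.sin (10 * t / a)| ≤ a * |10 * s / a - 10 * t / a| := by gcongr
    _ = 10 * |s - t| := by
        rw [← sub_div, ← mul_sub, abs_div, abs_mul, abs_of_pos ha, abs_of_pos (by norm_num : (0:ℝ) < 10)]
        field_simp

lemma abs_coord_sub_le (z z' : Eu (m + 3)) (i : Fin (m + 3)) : |z i - z' i| ≤ ‖z - z'‖ := by
  have := PiLp.norm_apply_le (z - z') i
  simpa using this

/-- shear of a planar Lipschitz map is Lipschitz where the amplitude is constant -/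
lemma lip_const_amp {h : ℂ → ℂ} {C : ℝ} (hC : 0 ≤ C) (hh : ∀ w w', ‖h w - h w'‖ ≤ C * ‖w - w'‖)
    {S : Set ℂ} {a : ℝ} (ha : 0 ≤ a) (hS : ∀ w ∈ S, amp (h w).re = a) (z z' : Eu (m + 3))
    (hz : W z ∈ S) (hz' : W z' ∈ S) :
    ‖Sh (put z (h (W z))) - Sh (put z' (h (W z')))‖ ≤ (C + 11) * ‖z - z'‖ := by
  simp only [Sh, put_put, W_put, put_zero, psi, hS _ hz, hS _ hz']
  rw [put_sub]
  refine (norm_put_le _ _).trans ?_
  have e1 : h (W z) + I * ((a * Real.sin (10 * max (z 0) 0 / a) : ℝ) : ℂ) -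
      (h (W z') + I * ((a * Real.sin (10 * max (z' 0) 0 / a) : ℝ) : ℂ)) =
      (h (W z) - h (W z')) + I * ((a * Real.sin (10 * max (z 0) 0 / a) - a * Real.sin (10 * max (z' 0) 0 / a) : ℝ) : ℂ) := by
    push_cast; ring
  rw [e1]
  have h1 : ‖h (W z) - h (W z')‖ ≤ C * ‖z - z'‖ := by
    refine (hh _ _).trans ?_
    rw [← W_sub]
    exact mul_le_mul_of_nonneg_left (norm_W_le _) hC
  have h2 : ‖I * ((a * Real.sin (10 * max (z 0) 0 / a) - a * Real.sin (10 * max (z' 0) 0 / a) : ℝ) : ℂ)‖ ≤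
      10 * ‖z - z'‖ := by
    rw [norm_mul, norm_I, one_mul, norm_real, Real.norm_eq_abs]
    refine (sin_lip a _ _ ha).trans ?_
    exact mul_le_mul_of_nonneg_left
      ((abs_max_sub_max_le_abs _ _ _).trans (abs_coord_sub_le z z' 0)) (by norm_num)
  have := norm_add_le (h (W z) - h (W z'))
    (I * ((a * Real.sin (10 * max (z 0) 0 / a) - a * Real.sin (10 * max (z' 0) 0 / a) : ℝ) : ℂ))
  linarith

lemma lip_neg {h : ℂ → ℂ} {C : ℝ} (hC : 0 ≤ C) (hh : ∀ w w', ‖h w - h w'‖ ≤ C * ‖w - w'‖)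
    (z z' : Eu (m + 3)) (hz : z 0 < 0) (hz' : z' 0 < 0) :
    ‖Sh (put z (h (W z))) - Sh (put z' (h (W z')))‖ ≤ (C + 11) * ‖z - z'‖ := by
  simp only [Sh, put_put, W_put, put_zero, psi_neg hz.le, psi_neg hz'.le]
  rw [put_sub]
  refine (norm_put_le _ _).trans ?_
  have h1 : ‖h (W z) - h (W z')‖ ≤ C * ‖z - z'‖ := by
    refine (hh _ _).trans ?_
    rw [← W_sub]
    exact mul_le_mul_of_nonneg_left (norm_W_le _) hC
  have : h (W z) + I * ((0 : ℝ) : ℂ) - (h (W z') + I * ((0 : ℝ) : ℂ)) = h (W z) - h (W z') := by simp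
  rw [this]
  linarith [norm_nonneg (z - z')]

lemma locLip_of {h : ℂ → ℂ} {C : ℝ≥0} (hh : ∀ w w', ‖h w - h w'‖ ≤ C * ‖w - w'‖)
    (hS : ∀ j, ∃ a, 0 ≤ a ∧ ∀ w ∈ src j, amp (h w).re = a) :
    LocLip (C + 11) (fun z : Eu (m + 3) => Sh (put z (h (W z)))) (Om m) := by
  intro z hz
  rcases hz.2 with h1 | ⟨j, hj⟩
  · refine ⟨{z | z 0 < 0}, (isOpen_lt (continuous_coord 0) continuous_const).mem_nhds h1.1, ?_⟩
    refine LipschitzOnWith.of_dist_le_mul fun x hx y hy => ?_
    rw [dist_eq_norm, dist_eq_norm]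
    exact lip_neg C.2 hh x y hx hy
  · obtain ⟨a, ha, haS⟩ := hS j
    refine ⟨W ⁻¹' (src j), ((isOpen_src j).preimage continuous_W).mem_nhds hj, ?_⟩
    refine LipschitzOnWith.of_dist_le_mul fun x hx y hy => ?_
    rw [dist_eq_norm, dist_eq_norm]
    exact lip_const_amp C.2 hh ha haS x y hx hy

lemma hk_src (k j : ℕ) : ∃ j', 1 ≤ j' ∧ ∀ w ∈ src j, hk k w ∈ sq j' := by
  unfold src hk
  split_ifs with hj
  · exact ⟨k + 1, by omega, fun w hw => hh_B0_mem _ hw⟩
  · rcases lt_or_ge j (k + 1) with h | h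
    · exact ⟨j, by omega, fun w hw => by rw [hh_sq_lt h hw]; exact hw⟩
    · exact ⟨j + 1, by omega, fun w hw => by rw [hh_sq_ge h hw, sq_div]; exact hw⟩

lemma locLip_F (k : ℕ) : LocLip 139 (F m k) (Om m) := by
  have := locLip_of (m := m) (h := hk k) (C := 128)
    (fun w w' => hh_lip (pow_pos10 _) (pow_le10 _) w w') (fun j => by
      obtain ⟨j', hj', h⟩ := hk_src k j
      exact ⟨(1 / 10) ^ j', by positivity, fun w hw => amp_eq hj' (h w hw).1⟩)
  norm_num at this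
  exact this

lemma locLip_f0 : LocLip 139 (f0 m) (Om m) := by
  have := locLip_of (m := m) (h := h0) (C := 128)
    (fun w w' => (h0_lip w w').trans (by
      have : ((128 : ℝ≥0) : ℝ) = 128 := rfl
      rw [this]; linarith [norm_nonneg (w - w')])) (fun j => by
      unfold src
      split_ifs with hj
      · exact ⟨0, le_rfl, fun w hw => by rw [h0_B0 hw, zero_re, amp_zero]⟩
      · refine ⟨(1 / 10) ^ j, by positivity, fun w hw => ?_⟩
        have h1 := sq_re hw
        have hp := pow_pos10 j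
        rw [h0_re (by linarith)]
        exact amp_eq (by omega) hw.1)
  norm_num at this
  exact this

/-! ### convergence -/

lemma tendsto_pow10 : Tendsto (fun k : ℕ => ((1 : ℝ) / 10) ^ (k + 1)) atTop (𝓝 0) :=
  (tendsto_pow_atTop_nhds_zero_of_lt_one (by norm_num) (by norm_num)).comp (tendsto_add_atTop_nat 1)

lemma tendsto_hk (w : ℂ) : Tendsto (fun k => ‖hk k w - h0 w‖) atTop (𝓝 0) := by
  have h1 : Tendsto (fun k : ℕ => ((1 : ℝ) / 10) ^ (k + 1) * (8 + ‖w‖)) atTop (𝓝 (0 * (8 + ‖w‖))) :=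
    tendsto_pow10.mul_const _
  rw [zero_mul] at h1
  exact squeeze_zero (fun k => norm_nonneg _) (fun k => hh_sub_h0 (pow_pos10 _) w) h1

lemma tendsto_F {z : Eu (m + 3)} (hz : z ∈ Om m) :
    Tendsto (fun k => F m k z) atTop (𝓝 (f0 m z)) := by
  rcases hz.2 with h1 | ⟨j, hj⟩
  · rw [tendsto_iff_norm_sub_tendsto_zero]
    refine squeeze_zero (fun k => norm_nonneg _) (fun k => ?_) (tendsto_hk (W z))
    simp only [F, f0, Sh, put_put, W_put, put_zero, psi_neg h1.1.le]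
    rw [put_sub]
    refine (norm_put_le _ _).trans ?_
    simp
  · unfold src at hj
    split_ifs at hj with hj0
    · rw [tendsto_iff_norm_sub_tendsto_zero]
      have h2 : Tendsto (fun k => ‖hk k (W z) - h0 (W z)‖ + ((1 : ℝ) / 10) ^ (k + 1)) atTop (𝓝 (0 + 0)) :=
        (tendsto_hk (W z)).add tendsto_pow10
      rw [add_zero] at h2
      refine squeeze_zero (fun k => norm_nonneg _) (fun k => ?_) h2
      have h3 : hk k (W z) ∈ sq (k + 1) := hh_B0_mem _ hj
      have h4 : amp (hk k (W z)).re = (1 / 10) ^ (k + 1) := amp_eq (by omega) h3.1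
      have h5 : psi (z 0) (h0 (W z)).re = 0 := by
        rw [h0_B0 hj, psi, zero_re, amp_zero, zero_mul]
      simp only [F, f0, Sh, put_put, W_put, put_zero, h5]
      rw [put_sub]
      refine (norm_put_le _ _).trans ?_
      have e1 : hk k (W z) + I * (psi (z 0) (hk k (W z)).re : ℂ) - (h0 (W z) + I * ((0 : ℝ) : ℂ)) =
          (hk k (W z) - h0 (W z)) + I * (psi (z 0) (hk k (W z)).re : ℂ) := by simp; ring
      rw [e1, sub_self, norm_zero, zero_add]
      refine (norm_add_le _ _).trans (add_le_add le_rfl ?_)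
      rw [norm_mul, norm_I, one_mul, norm_real, ← h4]
      exact abs_psi_le _ _
    · refine tendsto_const_nhds.congr' ?_
      filter_upwards [eventually_ge_atTop j] with k hk'
      have h1 := sq_re hj
      have hp := pow_pos10 j
      rw [F, f0, hk, hh_sq_lt (by omega) hj, h0_re (by linarith)]

/-! ### the weak closure -/

lemma vol_Om : volume (Om m) < ⊤ := bdd_Om.measure_lt_top

lemma norm_f0 {z : Eu (m + 3)} (hz : z ∈ Om m) : ‖f0 m z‖ ≤ 5 * (m + 3) :=
  le_of_tendsto (tendsto_F hz).norm (Eventually.of_forall fun k => norm_OmT ((F_mem_iff k z).2 hz))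

lemma f0_closure {z : Eu (m + 3)} (hz : z ∈ Om m) : f0 m z ∈ closure (OmT m) :=
  mem_closure_of_tendsto (tendsto_F hz) (Eventually.of_forall fun k => (F_mem_iff k z).2 hz)

lemma sobolev_of {G : Eu (m + 3) → Eu (m + 3)} {K : ℝ≥0} (hL : LocLip K G (Om m)) {A : ℝ}
    (hA : ∀ z ∈ Om m, ‖G z‖ ≤ A) (p : ℝ≥0∞) : IsSobolev p (Om m) G (fderiv ℝ G) := by
  have hμ : IsFiniteMeasure (volume.restrict (Om m)) := ⟨by simpa using vol_Om⟩
  refine ⟨?_, ?_, hL.isWeakDiff isOpen_Om⟩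
  · refine MemLp.of_bound (hL.continuousOn.aestronglyMeasurable isOpen_Om.measurableSet) A ?_
    rw [ae_restrict_iff' isOpen_Om.measurableSet]
    exact Eventually.of_forall hA
  · refine MemLp.of_bound (measurable_fderiv ℝ G).aestronglyMeasurable K ?_
    rw [ae_restrict_iff' isOpen_Om.measurableSet]
    exact Eventually.of_forall fun z hz => hL.norm_fderiv_le hz

lemma weak_part (p : ℝ≥0∞) : f0 m ∈ weakClosure p (Om m) (OmT m) := by
  refine ⟨?_, fderiv ℝ (f0 m), F m, fun k => fderiv ℝ (F m k), ?_, ?_, ?_⟩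
  · rw [ae_restrict_iff' isOpen_Om.measurableSet]
    exact Eventually.of_forall fun z hz => f0_closure hz
  · exact sobolev_of locLip_f0 (fun z hz => norm_f0 hz) p
  · exact fun k => ⟨isHomeo_F k, sobolev_of (locLip_F k) (fun z hz => norm_OmT ((F_mem_iff k z).2 hz)) p⟩
  · have hA : ∀ z ∈ Om m, ∀ {G : Eu (m + 3) → Eu (m + 3)}, LocLip 139 G (Om m) →
        ‖fderiv ℝ G z‖ ≤ 5 * (m + 3) + 139 := by
      intro z hz G hG
      have := hG.norm_fderiv_le hz
      have h130 : ((139 : ℝ≥0) : ℝ) = 139 := rfl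
      rw [h130] at this
      have : (0 : ℝ) ≤ m := Nat.cast_nonneg m
      linarith
    refine weakConv_of_bounded isOpen_Om vol_Om (A := 5 * (m + 3) + 139) (fun k => ?_) ?_
      (fun k => measurable_fderiv ℝ _) (measurable_fderiv ℝ _) (fun k z hz => ?_)
      (fun k z hz => hA z hz (locLip_F k)) (fun z hz => hA z hz locLip_f0) (fun z hz => tendsto_F hz)
      (fun k => (locLip_F k).isWeakDiff isOpen_Om) (locLip_f0.isWeakDiff isOpen_Om) p
    · exact (F_continuousOn k).aestronglyMeasurable isOpen_Om.measurableSet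
    · exact locLip_f0.continuousOn.aestronglyMeasurable isOpen_Om.measurableSet
    · have := norm_OmT ((F_mem_iff k z).2 hz)
      linarith

end

end Pool.Agent.U590.WS
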