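import Pool.Agent.U590.WS.Lower3
import Pool.Agent.U590.WS.Domain2

/-! The limit is not a strong limit of homeomorphisms. -/

open Complex Set Filter Topology Metric MeasureTheory
open scoped Real NNReal ENNReal ContDiff

namespace Pool.Agent.U590.WS

noncomputable section

variable {m : ℕ}

open Pool.Agent.Helper656.Sob (mol bmp pd IsWeakDeriv IsTest)

/-- the centre of the extra tentacle -/
def ctr (m : ℕ) : Fin (m + 2) → ℝ := fun i => if i.val = 0 then -(5 / 2) else if i.val = 1 then 0 else 1 / 2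

lemma ctr_zero : ctr m 0 = -(5 / 2) := by simp [ctr]

lemma ctr_one : ctr m 1 = 0 := by
  have : ((1 : Fin (m + 2)) : ℕ) = 1 := by
    rw [Fin.val_one']; exact Nat.mod_eq_of_lt (by omega)
  simp [ctr, this]

lemma mem_B0_ctr : (⟨-(5 / 2), 0⟩ : ℂ) ∈ B0 := by
  have hw : (⟨-(5 / 2), 0⟩ : ℂ) = ((5 / 2 : ℝ) : ℂ) * (-1) := by
    apply Complex.ext <;> simp
  have hn : ‖(⟨-(5 / 2), 0⟩ : ℂ)‖ = 5 / 2 := by
    rw [hw, norm_mul, norm_neg, norm_one, norm_real, Real.norm_eq_abs, abs_of_pos (by norm_num)]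
    norm_num
  have hd : dir (⟨-(5 / 2), 0⟩ : ℂ) = -1 := by
    rw [hw]; exact dir_mul_pos (by norm_num) (by simp)
  have hde : de 1 (⟨-(5 / 2), 0⟩ : ℂ) = 5 / 2 :=
    (le_antisymm (de_le le_rfl _) (by simpa using de_ge 1 (⟨-(5 / 2), 0⟩ : ℂ))).trans hn
  have hsg : sg (5 / 2) = 1 := by norm_num [sg]
  show hh 1 _ ∈ sq 0
  have e : hh 1 (⟨-(5 / 2), 0⟩ : ℂ) = 1 := by
    rw [hh, hde, hd, Me, M, div_one, tau_mid (by norm_num) (by norm_num), hsg, mul_comm I, exp_pi_mul_I]
    simp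
  rw [e]
  constructor <;> norm_num

lemma line_one (r : ℝ) (y : Fin (m + 2) → ℝ) : (line r y : Eu (m + 3)) 1 = y 0 := by
  have : (1 : Fin (m + 3)) = (0 : Fin (m + 2)).succ := by
    apply Fin.ext; rw [fin_val_one]; simp
  rw [this]; exact line_succ r y 0

lemma line_two (r : ℝ) (y : Fin (m + 2) → ℝ) : (line r y : Eu (m + 3)) 2 = y 1 := by
  have : (2 : Fin (m + 3)) = (1 : Fin (m + 2)).succ := by
    apply Fin.ext; rw [Fin.val_two, Fin.val_succ, Fin.val_one']
    rw [Nat.mod_eq_of_lt (by omega)]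
  rw [this]; exact line_succ r y 1

lemma side_line {r r' : ℝ} (hr' : -1 < r' ∧ r' < 1) {y : Fin (m + 2) → ℝ} (h : Side (line r y : Eu (m + 3))) :
    Side (line r' y : Eu (m + 3)) := by
  refine ⟨hr', fun i hi => ?_⟩
  have h0 := h.2 i hi
  revert hi h0
  refine Fin.cases ?_ (fun j => ?_) i
  · intro h0; simp at h0
  · intro _ h0; exact h0

lemma W_line (r r' : ℝ) (y : Fin (m + 2) → ℝ) : W (line r y : Eu (m + 3)) = W (line r' y) := by
  simp only [W, line_one, line_two]

/-- the region -/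
lemma exists_region : ∃ s : ℝ, 0 < s ∧
    ∀ z ∈ (prodSet (Ioo 0 1) (ball (ctr m) s) : Set (Eu (m + 3))), Side z ∧ W z ∈ B0 := by
  have ho : IsOpen {y : Fin (m + 2) → ℝ | Side (line (1 / 2) y : Eu (m + 3)) ∧
      W (line (1 / 2) y : Eu (m + 3)) ∈ B0} := by
    have hc : Continuous fun y : Fin (m + 2) → ℝ => (line (1 / 2) y : Eu (m + 3)) :=
      continuous_line.comp (continuous_const.prodMk continuous_id)
    exact (isOpen_side.preimage hc).inter (isOpen_B0.preimage (continuous_W.comp hc))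
  have hmem : ctr m ∈ {y : Fin (m + 2) → ℝ | Side (line (1 / 2) y : Eu (m + 3)) ∧
      W (line (1 / 2) y : Eu (m + 3)) ∈ B0} := by
    refine ⟨⟨⟨by rw [line_zero]; norm_num, by rw [line_zero]; norm_num⟩, fun i hi => ?_⟩, ?_⟩
    · revert hi
      refine Fin.cases ?_ (fun j => ?_) i
      · intro h0; simp at h0
      · intro h0
        rw [Fin.val_succ] at h0
        rw [line_succ, ctr, if_neg (by omega), if_neg (by omega)]
        norm_num
    · have : W (line (1 / 2) (ctr m) : Eu (m + 3)) = ⟨-(5 / 2), 0⟩ := by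
        simp only [W, line_one, line_two, ctr_zero, ctr_one]
      rw [this]
      exact mem_B0_ctr
  obtain ⟨s, hs, hs'⟩ := Metric.isOpen_iff.1 ho _ hmem
  refine ⟨s, hs, fun z hz => ?_⟩
  obtain ⟨h1, h2⟩ := hs' hz.2
  have e : z = line (z 0) (tl z) := (line_tl z).symm
  rw [e]
  refine ⟨side_line ⟨by linarith [hz.1.1], hz.1.2⟩ h1, ?_⟩
  rw [W_line _ (1 / 2)]
  exact h2

lemma f0_tentacle {z : Eu (m + 3)} (h : W z ∈ B0) : f0 m z = put z 0 := by
  rw [f0, h0_B0 h, Sh, W_put, put_put, put_zero, psi, zero_re, amp_zero]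
  simp

lemma abs_coord_enorm (v : Eu (m + 3)) (i : Fin (m + 3)) : ‖v i‖ₑ ≤ ‖v‖ₑ := by
  rw [← ofReal_norm, ← ofReal_norm]
  exact ENNReal.ofReal_le_ofReal (PiLp.norm_apply_le v i)

lemma not_strong {p : ℝ≥0∞} (hp : 1 ≤ p) : f0 m ∉ strongClosure p (Om m) (OmT m) := by
  rintro ⟨-, Df, F, DF, hf, hF, hconv⟩
  obtain ⟨s, hs, hreg⟩ := exists_region (m := m)
  set T : Set (Eu (m + 3)) := prodSet (Ioo 0 1) (ball (ctr m) s) with hTdef
  have hTo : IsOpen T := isOpen_prodSet isOpen_Ioo isOpen_ball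
  have hT : T ⊆ Om m := by
    intro z hz
    obtain ⟨h1, h2⟩ := hreg z hz
    refine ⟨h1, Or.inr ⟨0, ?_⟩⟩
    rw [src, if_pos rfl]
    exact h2
  have hμ : IsFiniteMeasure (volume.restrict (Om m)) := ⟨by simpa using vol_Om⟩
  have hDfi : IntegrableOn Df (Om m) := hf.2.1.integrable hp
  have hf0c : ContinuousOn (f0 m) (Om m) := locLip_f0.continuousOn
  -- the derivative of the limit vanishes
  have hz0 : ∀ᵐ z, z ∈ T → Df z (EuclideanSpace.single 0 1) 2 = 0 := by
    have hw := coord_weak hT isOpen_Om hf0c hf.2.2 hDfi 0 2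
    have hvi : IntegrableOn (fun z => Df z (EuclideanSpace.single 0 1) 2) T := by
      have h1 : IntegrableOn (fun z => Df z (EuclideanSpace.single 0 1)) T :=
        Integrable.apply_continuousLinearMap (hDfi.mono_set hT) (EuclideanSpace.single 0 1)
      exact (EuclideanSpace.proj (2 : Fin (m + 3)) : Eu (m + 3) →L[ℝ] ℝ).integrable_comp h1
    refine hTo.ae_eq_zero_of_integral_contDiff_smul_eq_zero hvi.locallyIntegrableOn ?_
    intro φ h1 h2 h3
    have h4 := hw φ ⟨h1, h2, h3⟩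
    have h5 : ∫ x, f0 m x 2 * pd 0 φ x = 0 := by
      rw [← integral_zero (Eu (m + 3)) ℝ (μ := volume)]
      refine integral_congr_ae (Eventually.of_forall fun z => ?_)
      by_cases hz : z ∈ T
      · have : f0 m z 2 = 0 := by
          rw [f0_tentacle (hreg z hz).2, put_apply, if_neg one_ne_two', if_pos rfl, zero_im]
        simp only [this, zero_mul]
      · have : pd 0 φ z = 0 := image_eq_zero_of_notMem_tsupport fun h =>
          hz (h3 (Pool.Agent.Helper656.Sob.pd_support 0 φ h))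
        simp only [this, mul_zero]
    rw [h5] at h4
    have h6 : ∫ x, φ x • Df x (EuclideanSpace.single 0 1) 2 =
        ∫ x, Df x (EuclideanSpace.single 0 1) 2 * φ x :=
      integral_congr_ae (Eventually.of_forall fun z => by simp [mul_comm])
    rw [h6]; linarith
  -- the lower bound
  set κ : ℝ≥0∞ := ENNReal.ofReal (1 / 256) * volume (closedBall (ctr m) (s / 2)) with hκ
  have hκ0 : 0 < κ := by
    refine ENNReal.mul_pos (by simp) ?_
    exact (Metric.measure_closedBall_pos volume _ (by positivity)).ne'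
  set C : ℝ≥0∞ := (volume.restrict (Om m)) univ ^ (1 / (1 : ℝ≥0∞).toReal - 1 / p.toReal) with hC
  have hCt : C ≠ ⊤ := by
    refine ENNReal.rpow_ne_top_of_nonneg ?_ (measure_ne_top _ _)
    rw [ENNReal.toReal_one, div_one]
    rcases eq_or_ne p ⊤ with h | h
    · rw [h]; simp
    · have : 1 ≤ p.toReal := by
        rw [← ENNReal.toReal_one]; exact ENNReal.toReal_mono h hp
      rw [sub_nonneg]
      exact (div_le_one (by linarith)).2 this
  have hk : ∀ k, κ ≤ (eLpNorm (fun x => F k x - f0 m x) p (volume.restrict (Om m)) +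
      eLpNorm (fun x => DF k x - Df x) p (volume.restrict (Om m))) * C := by
    intro k
    obtain ⟨⟨hbij, hcont, -⟩, hFm, hDFm, hFw⟩ := hF k
    refine (core_lower hs hT hcont hbij.mapsTo hFw (hDFm.integrable hp)).trans ?_
    have b1 : ∫⁻ z in T, ‖(DF k z (EuclideanSpace.single 0 1)) 2‖ₑ ≤
        eLpNorm (fun x => DF k x - Df x) p (volume.restrict (Om m)) * C := by
      calc ∫⁻ z in T, ‖(DF k z (EuclideanSpace.single 0 1)) 2‖ₑ ≤ ∫⁻ z in T, ‖DF k z - Df z‖ₑ := by
            refine setLIntegral_mono_ae' hTo.measurableSet ?_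
            filter_upwards [hz0] with z hz hzT
            have e1 : (DF k z (EuclideanSpace.single 0 1)) 2 =
                ((DF k z - Df z) (EuclideanSpace.single 0 1)) 2 := by
              rw [_root_.sub_apply, PiLp.sub_apply, hz hzT, sub_zero]
            rw [e1]
            refine (abs_coord_enorm _ _).trans ?_
            rw [← ofReal_norm, ← ofReal_norm]
            refine ENNReal.ofReal_le_ofReal ?_
            refine ((DF k z - Df z).le_opNorm _).trans ?_
            simp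
        _ ≤ ∫⁻ z in Om m, ‖DF k z - Df z‖ₑ := lintegral_mono_set hT
        _ = eLpNorm (fun x => DF k x - Df x) 1 (volume.restrict (Om m)) := by
            rw [eLpNorm_one_eq_lintegral_enorm]
        _ ≤ _ := eLpNorm_le_eLpNorm_mul_rpow_measure_univ hp (hDFm.1.sub hf.2.1.1)
    have b2 : ∫⁻ z in T, ‖F k z 0 - z 0‖ₑ ≤
        eLpNorm (fun x => F k x - f0 m x) p (volume.restrict (Om m)) * C := by
      calc ∫⁻ z in T, ‖F k z 0 - z 0‖ₑ ≤ ∫⁻ z in T, ‖F k z - f0 m z‖ₑ := by
            refine setLIntegral_mono' hTo.measurableSet fun z hz => ?_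
            have e1 : F k z 0 - z 0 = (F k z - f0 m z) 0 := by
              rw [PiLp.sub_apply, f0_tentacle (hreg z hz).2, put_zero]
            rw [e1]
            exact abs_coord_enorm _ _
        _ ≤ ∫⁻ z in Om m, ‖F k z - f0 m z‖ₑ := lintegral_mono_set hT
        _ = eLpNorm (fun x => F k x - f0 m x) 1 (volume.restrict (Om m)) := by
            rw [eLpNorm_one_eq_lintegral_enorm]
        _ ≤ _ := eLpNorm_le_eLpNorm_mul_rpow_measure_univ hp (hFm.1.sub hf.1.1)
    rw [add_mul, add_comm]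
    exact add_le_add b2 b1
  have hlim := ENNReal.Tendsto.mul_const hconv (Or.inr hCt)
  rw [zero_mul] at hlim
  exact absurd (ge_of_tendsto' hlim hk) (not_le.2 hκ0)

/-- the main theorem -/
theorem main (m : ℕ) : ∃ (Ω Ω' : Set (Eu (m + 3))) (f : Eu (m + 3) → Eu (m + 3)),
    IsOpen Ω ∧ Bornology.IsBounded Ω ∧ IsConnected Ω ∧
    IsOpen Ω' ∧ Bornology.IsBounded Ω' ∧ IsConnected Ω' ∧
    ∀ p : ℝ≥0∞, 1 ≤ p → f ∈ weakClosure p Ω Ω' ∧ f ∉ strongClosure p Ω Ω' :=
  ⟨Om m, OmT m, f0 m, isOpen_Om, bdd_Om, isConnected_Om, isOpen_OmT, bdd_OmT, isConnected_OmT,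
    fun p hp => ⟨weak_part p, not_strong hp⟩⟩

end

end Pool.Agent.U590.WS
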