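import Pool.Agent.U590.WS.Path

/-! Tools for the lower bound: Tonelli in one coordinate, contraction of mollification. -/

open Set Filter Topology Metric MeasureTheory
open scoped Real NNReal ENNReal ContDiff

namespace Pool.Agent.U590.WS

noncomputable section

variable {n : ℕ}

open Pool.Agent.Helper656.Sob (mol bmp pd IsWeakDeriv IsTest)

/-- the point with first coordinate `r` and other coordinates `y` -/
def line (r : ℝ) (y : Fin n → ℝ) : Eu (n + 1) := WithLp.toLp 2 (Fin.cons r y)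

/-- the other coordinates -/
def tl (z : Eu (n + 1)) : Fin n → ℝ := fun i => z i.succ

lemma line_zero (r : ℝ) (y : Fin n → ℝ) : line r y 0 = r := rfl

lemma line_succ (r : ℝ) (y : Fin n → ℝ) (i : Fin n) : line r y i.succ = y i := rfl

lemma tl_line (r : ℝ) (y : Fin n → ℝ) : tl (line r y) = y := rfl

lemma line_tl (z : Eu (n + 1)) : line (z 0) (tl z) = z := by
  ext i
  refine Fin.cases ?_ (fun i => ?_) i
  · rfl
  · rfl

lemma continuous_line : Continuous (fun q : ℝ × (Fin n → ℝ) => line q.1 q.2) := by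
  refine (PiLp.continuous_toLp 2 _).comp ?_
  refine continuous_pi fun i => ?_
  refine Fin.cases ?_ (fun i => ?_) i
  · exact continuous_fst
  · exact (continuous_apply i).comp continuous_snd

lemma mp_line : MeasurePreserving (fun q : ℝ × (Fin n → ℝ) => line q.1 q.2)
    ((volume : Measure ℝ).prod volume) volume := by
  have h1 := (volume_preserving_piFinSuccAbove (fun _ : Fin (n + 1) => ℝ) 0).symm
  have h2 := (PiLp.volume_preserving_toLp (Fin (n + 1))).comp h1
  have h3 : (WithLp.toLp 2 ∘ (MeasurableEquiv.piFinSuccAbove (fun _ : Fin (n + 1) => ℝ) 0).symm :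
      ℝ × (Fin n → ℝ) → Eu (n + 1)) = fun q => line q.1 q.2 := by
    funext q
    simp only [Function.comp, line]
    congr 1
    ext i
    refine Fin.cases ?_ (fun i => ?_) i <;> simp [MeasurableEquiv.piFinSuccAbove]
  rw [← h3]
  exact h2

/-- product sets -/
def prodSet (I : Set ℝ) (Y : Set (Fin n → ℝ)) : Set (Eu (n + 1)) := {z | z 0 ∈ I ∧ tl z ∈ Y}

lemma line_mem {I : Set ℝ} {Y : Set (Fin n → ℝ)} {r : ℝ} {y : Fin n → ℝ} :
    line r y ∈ prodSet I Y ↔ r ∈ I ∧ y ∈ Y := Iff.rfl

lemma continuous_tl : Continuous (tl : Eu (n + 1) → Fin n → ℝ) :=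
  continuous_pi fun i => by unfold tl; fun_prop

lemma measurableSet_prodSet {I : Set ℝ} {Y : Set (Fin n → ℝ)} (hI : MeasurableSet I)
    (hY : MeasurableSet Y) : MeasurableSet (prodSet I Y) := by
  have h0 : Continuous fun z : Eu (n + 1) => (z 0 : ℝ) := by fun_prop
  exact (h0.measurable hI).inter (continuous_tl.measurable hY)

/-- Tonelli -/
lemma tonelli {I : Set ℝ} {Y : Set (Fin n → ℝ)} (hI : MeasurableSet I) (hY : MeasurableSet Y)
    {g : Eu (n + 1) → ℝ≥0∞} (hg : Measurable g) :
    ∫⁻ y in Y, ∫⁻ r in I, g (line r y) = ∫⁻ z in prodSet I Y, g z := by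
  have h1 : ∫⁻ z in prodSet I Y, g z = ∫⁻ q in I ×ˢ Y, g (line q.1 q.2) ∂((volume : Measure ℝ).prod volume) := by
    rw [← mp_line.map_eq, setLIntegral_map (measurableSet_prodSet hI hY) hg mp_line.measurable]
    rfl
  rw [h1, ← Measure.prod_restrict]
  exact (lintegral_prod_symm' (fun q : ℝ × (Fin n → ℝ) => g (line q.1 q.2))
    (hg.comp mp_line.measurable)).symm

/-- mollification does not increase the `L¹` norm, local version -/
lemma mol_contraction (b : ContDiffBump (0 : Eu n)) {w : Eu n → ℝ} (hw : AEStronglyMeasurable w)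
    {v : Eu n → ℝ} {K T : Set (Eu n)} (hK : MeasurableSet K) (hT : MeasurableSet T)
    (h : ∀ x ∈ K, ∀ t, ‖t‖ < b.rOut → x - t ∈ T ∧ w (x - t) = v (x - t)) :
    ∫⁻ x in K, ‖mol b w x‖ₑ ≤ ∫⁻ z in T, ‖v z‖ₑ := by
  set ρ : Eu n → ℝ := b.normed (volume : Measure (Eu n)) with hρ
  have hρm : Measurable ρ := b.continuous_normed.measurable
  have h1 : ∀ x, ‖mol b w x‖ₑ ≤ ∫⁻ t, ‖ρ t‖ₑ * ‖w (x - t)‖ₑ := by
    intro x
    rw [Pool.Agent.Helper656.Sob.mol_eq]
    refine (enorm_integral_le_lintegral_enorm _).trans (le_of_eq ?_)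
    exact lintegral_congr fun t => by rw [enorm_mul]
  have hmeas : AEMeasurable (Function.uncurry fun x t : Eu n => K.indicator 1 x * (‖ρ t‖ₑ * ‖w (x - t)‖ₑ))
      ((volume : Measure (Eu n)).prod volume) := by
    have a1 : AEMeasurable (fun q : Eu n × Eu n => K.indicator (1 : Eu n → ℝ≥0∞) q.1)
        ((volume : Measure (Eu n)).prod volume) :=
      ((measurable_one.indicator hK).comp measurable_fst).aemeasurable
    have a2 : AEMeasurable (fun q : Eu n × Eu n => ‖ρ q.2‖ₑ) ((volume : Measure (Eu n)).prod volume) :=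
      ((hρm.comp measurable_snd).enorm).aemeasurable
    have a3 : AEMeasurable (fun q : Eu n × Eu n => ‖w (q.1 - q.2)‖ₑ)
        ((volume : Measure (Eu n)).prod volume) :=
      (hw.comp_quasiMeasurePreserving
        (quasiMeasurePreserving_sub_of_right_invariant volume volume)).enorm
    exact a1.mul (a2.mul a3)
  calc ∫⁻ x in K, ‖mol b w x‖ₑ ≤ ∫⁻ x in K, ∫⁻ t, ‖ρ t‖ₑ * ‖w (x - t)‖ₑ := lintegral_mono h1
    _ = ∫⁻ x, ∫⁻ t, K.indicator 1 x * (‖ρ t‖ₑ * ‖w (x - t)‖ₑ) := by
        rw [← lintegral_indicator hK]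
        refine lintegral_congr fun x => ?_
        by_cases hx : x ∈ K
        · simp [hx]
        · simp [hx]
    _ = ∫⁻ t, ∫⁻ x, K.indicator 1 x * (‖ρ t‖ₑ * ‖w (x - t)‖ₑ) := lintegral_lintegral_swap hmeas
    _ ≤ ∫⁻ t, ‖ρ t‖ₑ * ∫⁻ z in T, ‖v z‖ₑ := by
        refine lintegral_mono fun t => ?_
        by_cases ht : ‖t‖ < b.rOut
        · have e1 : ∀ x, K.indicator 1 x * (‖ρ t‖ₑ * ‖w (x - t)‖ₑ) ≤
              ‖ρ t‖ₑ * T.indicator (fun z => ‖v z‖ₑ) (x - t) := by
            intro x
            by_cases hx : x ∈ K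
            · obtain ⟨h2, h3⟩ := h x hx t ht
              rw [indicator_of_mem hx, indicator_of_mem h2, h3]
              simp
            · simp [hx]
          refine (lintegral_mono e1).trans ?_
          rw [lintegral_const_mul' _ _ enorm_ne_top]
          have e5 : ∫⁻ x, T.indicator (fun z => ‖v z‖ₑ) (x - t) = ∫⁻ z in T, ‖v z‖ₑ := by
            rw [lintegral_sub_right_eq_self (fun z => T.indicator (fun z => ‖v z‖ₑ) z) t,
              lintegral_indicator hT]
          rw [e5]
        · have e2 : ρ t = 0 := by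
            rw [hρ, ContDiffBump.normed_def, b.zero_of_le_dist, zero_div]
            rw [dist_zero_right]; exact not_lt.1 ht
          simp [e2]
    _ = (∫⁻ t, ‖ρ t‖ₑ) * ∫⁻ z in T, ‖v z‖ₑ := by
        rw [lintegral_mul_const _ hρm.enorm]
    _ = ∫⁻ z in T, ‖v z‖ₑ := by
        have e3 : ∫⁻ t, ‖ρ t‖ₑ = 1 := by
          have e4 : ∀ t, ‖ρ t‖ₑ = ENNReal.ofReal (ρ t) := fun t =>
            Real.enorm_of_nonneg (b.nonneg_normed t)
          simp only [e4]
          rw [← ofReal_integral_eq_lintegral_ofReal b.integrable_normed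
            (Eventually.of_forall fun t => b.nonneg_normed t), b.integral_normed]
          simp
        rw [e3, one_mul]

end

end Pool.Agent.U590.WS
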