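import Pool.Agent.U590.WS.Lower

/-! The lower bound along lines. -/

open Set Filter Topology Metric MeasureTheory
open scoped Real NNReal ENNReal ContDiff

namespace Pool.Agent.U590.WS

noncomputable section

variable {n m : ℕ}

open Pool.Agent.Helper656.Sob (mol bmp pd IsWeakDeriv IsTest)

lemma meas_line {I : Set ℝ} {g : Eu (n + 1) → ℝ≥0∞} (hg : Measurable g) :
    Measurable fun y : Fin n → ℝ => ∫⁻ r in I, g (line r y) := by
  exact (hg.comp mp_line.measurable).lintegral_prod_left'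

lemma line_eq (y : Fin n → ℝ) (r : ℝ) :
    line r y = r • EuclideanSpace.single (0 : Fin (n + 1)) (1 : ℝ) + line 0 y := by
  ext i
  refine Fin.cases ?_ (fun i => ?_) i
  · simp [line_zero]
  · simp [line_succ]

lemma hasDerivAt_line {g : Eu (n + 1) → ℝ} (hg : ContDiff ℝ 1 g) (y : Fin n → ℝ) (r : ℝ) :
    HasDerivAt (fun r => g (line r y)) (pd 0 g (line r y)) r := by
  have h1 : HasDerivAt (fun r => line r y) (EuclideanSpace.single (0 : Fin (n + 1)) (1 : ℝ)) r := by
    have : (fun r => line r y) = fun r => r • EuclideanSpace.single (0 : Fin (n + 1)) (1 : ℝ) + line 0 y :=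
      funext fun r => line_eq y r
    rw [this]
    simpa using ((hasDerivAt_id r).smul_const (EuclideanSpace.single (0 : Fin (n + 1)) (1 : ℝ))).add_const
      (line 0 y)
  exact ((hg.differentiable one_ne_zero) (line r y)).hasFDerivAt.comp_hasDerivAt r h1

lemma continuous_line_left (y : Fin n → ℝ) : Continuous fun r : ℝ => line r y :=
  continuous_line.comp (continuous_id.prodMk continuous_const)

/-- the chain inequality for smooth functions on a line -/
lemma chain_le {g : Eu (n + 1) → ℝ} (hg : ContDiff ℝ 1 g) (y : Fin n → ℝ) {a b : ℝ} {N : ℕ}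
    {s : ℕ → ℝ} (hs : Monotone s) (hs' : ∀ i, s i ∈ Icc a b) :
    ENNReal.ofReal (∑ i ∈ Finset.range N, |g (line (s (i + 1)) y) - g (line (s i) y)|) ≤
      ∫⁻ r in Icc a b, ‖pd 0 g (line r y)‖ₑ := by
  set d : ℝ → ℝ := fun r => pd 0 g (line r y) with hd
  have hdc : Continuous d :=
    (Pool.Agent.Helper656.Sob.pd_cont 0 hg).comp (continuous_line_left y)
  have h1 : ∀ i ∈ Finset.range N, |g (line (s (i + 1)) y) - g (line (s i) y)| ≤
      ∫ r in s i..s (i + 1), |d r| := by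
    intro i _
    have e : ∫ r in s i..s (i + 1), d r = g (line (s (i + 1)) y) - g (line (s i) y) :=
      intervalIntegral.integral_eq_sub_of_hasDerivAt (fun r _ => hasDerivAt_line hg y r)
        (hdc.intervalIntegrable _ _)
    rw [← e]
    exact intervalIntegral.abs_integral_le_integral_abs (hs (Nat.le_succ i))
  have h2 : ∑ i ∈ Finset.range N, |g (line (s (i + 1)) y) - g (line (s i) y)| ≤
      ∫ r in s 0..s N, |d r| := by
    refine (Finset.sum_le_sum h1).trans (le_of_eq ?_)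
    exact intervalIntegral.sum_integral_adjacent_intervals fun k _ => (hdc.abs).intervalIntegrable _ _
  refine (ENNReal.ofReal_le_ofReal h2).trans ?_
  rw [intervalIntegral.integral_of_le (hs (Nat.zero_le N)),
    ofReal_integral_eq_lintegral_ofReal (hdc.abs.integrableOn_Ioc) (Eventually.of_forall fun r => abs_nonneg _)]
  refine (lintegral_mono_set (Ioc_subset_Icc_self.trans (Icc_subset_Icc (hs' 0).1 (hs' N).2))).trans ?_
  refine lintegral_mono fun r => ?_
  rw [← Real.norm_eq_abs, ofReal_norm]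

lemma find_pt {q : ℝ → ℝ} (h : ∫⁻ r in Icc (1 / 8 : ℝ) (7 / 8), ‖q r‖ₑ < ENNReal.ofReal (1 / 256))
    {α : ℝ} (h1 : 1 / 8 ≤ α) (h2 : α + 1 / 16 ≤ 7 / 8) : ∃ r ∈ Icc α (α + 1 / 16), |q r| ≤ 1 / 16 := by
  by_contra hcon
  push Not at hcon
  refine absurd h (not_lt.2 ?_)
  calc ENNReal.ofReal (1 / 256) = ∫⁻ _ in Icc α (α + 1 / 16), ENNReal.ofReal (1 / 16) := by
        rw [setLIntegral_const, Real.volume_Icc, ← ENNReal.ofReal_mul (by norm_num)]
        congr 1; ring
    _ ≤ ∫⁻ r in Icc α (α + 1 / 16), ‖q r‖ₑ := by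
        refine setLIntegral_mono' measurableSet_Icc fun r hr => ?_
        rw [← ofReal_norm, Real.norm_eq_abs]
        exact ENNReal.ofReal_le_ofReal (hcon r hr).le
    _ ≤ _ := lintegral_mono_set (Icc_subset_Icc h1 h2)

lemma pointwise_claim {U P : Eu (m + 3) → ℝ} {G : Eu (m + 3) → Eu (m + 3)} (y : Fin (m + 2) → ℝ)
    (hG : ContinuousOn (fun r => G (line r y)) (Icc (1 / 8) (7 / 8)))
    (hT : ∀ r ∈ Icc (1 / 8 : ℝ) (7 / 8), G (line r y) ∈ OmT m)
    (hP : ∀ r ∈ Icc (1 / 8 : ℝ) (7 / 8), P (line r y) = G (line r y) 0 - r)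
    (hU : ∀ r ∈ Icc (1 / 8 : ℝ) (7 / 8), U (line r y) = G (line r y) 2) (hUc : Continuous U) :
    ENNReal.ofReal (1 / 256) ≤
      liminf (fun k => ∫⁻ r in Icc (1 / 8 : ℝ) (7 / 8), ‖pd 0 (mol (bmp (m + 3) k) U) (line r y)‖ₑ) atTop +
        ∫⁻ r in Icc (1 / 8 : ℝ) (7 / 8), ‖P (line r y)‖ₑ := by
  by_cases hE : ∫⁻ r in Icc (1 / 8 : ℝ) (7 / 8), ‖P (line r y)‖ₑ < ENNReal.ofReal (1 / 256)
  swap
  · exact (not_lt.1 hE).trans le_add_self
  obtain ⟨r1, hr1, hq1⟩ := find_pt hE (α := 1 / 8) le_rfl (by norm_num)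
  obtain ⟨r2, hr2, hq2⟩ := find_pt hE (α := 13 / 16) (by norm_num) (by norm_num)
  obtain ⟨hr1a, hr1b⟩ := hr1
  obtain ⟨hr2a, hr2b⟩ := hr2
  have hr12 : r1 ≤ r2 := by linarith
  have hsub : Icc r1 r2 ⊆ Icc (1 / 8 : ℝ) (7 / 8) := Icc_subset_Icc (by linarith) (by linarith)
  rw [hP r1 ⟨by linarith, by linarith⟩, abs_le] at hq1
  rw [hP r2 ⟨by linarith, by linarith⟩, abs_le] at hq2
  obtain ⟨N, s, hs1, hs2, hs3⟩ := path_lemma hr12 (hG.mono hsub) (fun t ht => hT t (hsub ht))
    (by linarith [hq1.2]) (by linarith [hq2.1])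
  refine le_trans ?_ le_self_add
  have hlim : Tendsto (fun k => ENNReal.ofReal (∑ i ∈ Finset.range N,
      |mol (bmp (m + 3) k) U (line (s (i + 1)) y) - mol (bmp (m + 3) k) U (line (s i) y)|)) atTop
      (𝓝 (ENNReal.ofReal (∑ i ∈ Finset.range N, |U (line (s (i + 1)) y) - U (line (s i) y)|))) := by
    refine ENNReal.tendsto_ofReal ?_
    refine tendsto_finset_sum _ fun i _ => ?_
    exact ((Pool.Agent.Helper656.Sob.mol_tendsto hUc _).sub
      (Pool.Agent.Helper656.Sob.mol_tendsto hUc _)).abs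
  have h1 : ENNReal.ofReal (∑ i ∈ Finset.range N, |U (line (s (i + 1)) y) - U (line (s i) y)|) ≤
      liminf (fun k => ∫⁻ r in Icc (1 / 8 : ℝ) (7 / 8), ‖pd 0 (mol (bmp (m + 3) k) U) (line r y)‖ₑ) atTop := by
    rw [← hlim.liminf_eq]
    refine liminf_le_liminf (Eventually.of_forall fun k => ?_)
    exact chain_le ((Pool.Agent.Helper656.Sob.mol_contDiff _ hUc.locallyIntegrable).of_le (by simp)) y hs1
      fun i => hsub (hs2 i)
  refine le_trans (ENNReal.ofReal_le_ofReal ?_) h1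
  have e : ∀ i, U (line (s i) y) = G (line (s i) y) 2 := fun i => hU _ (hsub (hs2 i))
  simp only [e]
  linarith

end

end Pool.Agent.U590.WS
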