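import Pool.Agent.U590.WS.Lower2

/-! The core lower bound. -/

open Set Filter Topology Metric MeasureTheory
open scoped Real NNReal ENNReal ContDiff

namespace Pool.Agent.U590.WS

noncomputable section

variable {n m : ℕ}

open Pool.Agent.Helper656.Sob (mol bmp pd IsWeakDeriv IsTest)

/-- weak differential gives weak partial derivatives of the coordinates -/
lemma coord_weak {Ω T : Set (Eu n)} (hTΩ : T ⊆ Ω) (hΩ : IsOpen Ω) {G : Eu n → Eu n}
    {D : Eu n → (Eu n →L[ℝ] Eu n)} (hG : ContinuousOn G Ω) (hD : IsWeakDiff Ω G D)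
    (hDl : IntegrableOn D Ω) (l i : Fin n) :
    IsWeakDeriv T l (fun z => G z i) (fun z => D z (EuclideanSpace.single l 1) i) := by
  intro φ hφ
  obtain ⟨h1, h2, h3⟩ := hφ
  have h3' : tsupport φ ⊆ Ω := h3.trans hTΩ
  have e1 := congrArg (fun v : Eu n => v i) (hD φ h1 h2 h3' (EuclideanSpace.single l 1))
  simp only [PiLp.neg_apply] at e1
  have hdφ : Continuous fun x => fderiv ℝ φ x (EuclideanSpace.single l 1) :=
    (h1.continuous_fderiv (by simp)).clm_apply continuous_const
  have hi1 : Integrable (fun x => (fderiv ℝ φ x (EuclideanSpace.single l 1)) • G x) (volume.restrict Ω) := by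
    refine Integrable.restrict ?_
    have hc : ContinuousOn (fun x => (fderiv ℝ φ x (EuclideanSpace.single l 1)) • G x) (tsupport φ) :=
      hdφ.continuousOn.smul (hG.mono h3')
    refine (integrableOn_iff_integrable_of_support_subset ?_).1 (hc.integrableOn_compact h2)
    intro x hx
    by_contra hx'
    apply hx
    have : fderiv ℝ φ x = 0 := by
      have := (support_fderiv_subset ℝ (f := φ))
      by_contra h
      exact hx' (this h)
    simp [this]
  have hi2 : Integrable (fun x => φ x • D x (EuclideanSpace.single l 1)) (volume.restrict Ω) := by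
    obtain ⟨B, hB⟩ := h2.exists_bound_of_continuous h1.continuous
    exact (hDl.apply_continuousLinearMap (EuclideanSpace.single l 1)).bdd_smul B
      h1.continuous.aestronglyMeasurable (Eventually.of_forall hB)
  have e2 : (∫ x in Ω, (fderiv ℝ φ x (EuclideanSpace.single l 1)) • G x) i =
      ∫ x in Ω, (fderiv ℝ φ x (EuclideanSpace.single l 1)) * G x i :=
    ((EuclideanSpace.proj i : Eu n →L[ℝ] ℝ).integral_comp_comm hi1).symm
  have e3 : (∫ x in Ω, φ x • D x (EuclideanSpace.single l 1)) i =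
      ∫ x in Ω, φ x * D x (EuclideanSpace.single l 1) i :=
    ((EuclideanSpace.proj i : Eu n →L[ℝ] ℝ).integral_comp_comm hi2).symm
  rw [e2, e3] at e1
  have hz : ∀ x, x ∉ Ω → φ x = 0 := fun x hx => image_eq_zero_of_notMem_tsupport fun h => hx (h3' h)
  have hz' : ∀ x, x ∉ Ω → fderiv ℝ φ x = 0 := by
    intro x hx
    by_contra h
    exact hx (h3' (support_fderiv_subset ℝ h))
  rw [setIntegral_eq_integral_of_forall_compl_eq_zero (fun x hx => by rw [hz' x hx]; simp),
    setIntegral_eq_integral_of_forall_compl_eq_zero (fun x hx => by rw [hz x hx]; simp)] at e1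
  have e4 : ∫ x, G x i * pd l φ x = ∫ x, (fderiv ℝ φ x (EuclideanSpace.single l 1)) * G x i :=
    integral_congr_ae (Eventually.of_forall fun x => mul_comm _ _)
  have e5 : ∫ x, D x (EuclideanSpace.single l 1) i * φ x = ∫ x, φ x * D x (EuclideanSpace.single l 1) i :=
    integral_congr_ae (Eventually.of_forall fun x => mul_comm _ _)
  show ∫ x, G x i * pd l φ x = -∫ x, D x (EuclideanSpace.single l 1) i * φ x
  rw [e4, e5, e1]

lemma isOpen_prodSet {I : Set ℝ} {Y : Set (Fin n → ℝ)} (hI : IsOpen I) (hY : IsOpen Y) :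
    IsOpen (prodSet I Y) := by
  have h0 : Continuous fun z : Eu (n + 1) => (z 0 : ℝ) := by fun_prop
  exact (hI.preimage h0).inter (hY.preimage continuous_tl)

lemma isCompact_prodSet {I : Set ℝ} {Y : Set (Fin n → ℝ)} (hI : IsCompact I) (hY : IsCompact Y) :
    IsCompact (prodSet I Y) := by
  have : prodSet I Y = (fun q : ℝ × (Fin n → ℝ) => line q.1 q.2) '' (I ×ˢ Y) := by
    ext z
    constructor
    · intro hz
      exact ⟨(z 0, tl z), ⟨hz.1, hz.2⟩, line_tl z⟩
    · rintro ⟨q, hq, rfl⟩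
      exact hq
  rw [this]
  exact (hI.prod hY).image continuous_line

/-- the core lower bound -/
lemma core_lower {c : Fin (m + 2) → ℝ} {s : ℝ} (hs : 0 < s)
    (hT : prodSet (Ioo 0 1) (ball c s) ⊆ Om m)
    {G : Eu (m + 3) → Eu (m + 3)} {D : Eu (m + 3) → (Eu (m + 3) →L[ℝ] Eu (m + 3))}
    (hG : ContinuousOn G (Om m)) (hmap : MapsTo G (Om m) (OmT m)) (hD : IsWeakDiff (Om m) G D)
    (hDl : IntegrableOn D (Om m)) :
    ENNReal.ofReal (1 / 256) * volume (closedBall c (s / 2)) ≤
      (∫⁻ z in prodSet (Ioo 0 1) (ball c s), ‖(D z (EuclideanSpace.single 0 1)) 2‖ₑ) +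
        ∫⁻ z in prodSet (Ioo 0 1) (ball c s), ‖G z 0 - z 0‖ₑ := by
  set T : Set (Eu (m + 3)) := prodSet (Ioo 0 1) (ball c s) with hTdef
  set I : Set ℝ := Icc (1 / 8) (7 / 8) with hI
  set Y : Set (Fin (m + 2) → ℝ) := closedBall c (s / 2) with hY
  set K : Set (Eu (m + 3)) := prodSet I Y with hK
  have hTo : IsOpen T := isOpen_prodSet isOpen_Ioo isOpen_ball
  have hKc : IsCompact K := isCompact_prodSet isCompact_Icc (isCompact_closedBall _ _)
  have hYm : MeasurableSet Y := measurableSet_closedBall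
  have hIm : MeasurableSet I := measurableSet_Icc
  have hKT : K ⊆ T := by
    rintro z ⟨h1, h2⟩
    refine ⟨⟨by linarith [h1.1], by linarith [h1.2]⟩, ?_⟩
    exact closedBall_subset_ball (by linarith) h2
  obtain ⟨δ, hδ, hδT⟩ := hKc.exists_cthickening_subset_open hTo hKT
  have hK2c : IsCompact (cthickening δ K) := hKc.cthickening
  obtain ⟨κ, hκ, hκ1, hκb⟩ := Pool.Agent.Helper656.Sob.exists_cutoff hTo hK2c hδT
  obtain ⟨hκs, hκc, hκT⟩ := id hκ
  set u : Eu (m + 3) → ℝ := fun z => G z 2 with hu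
  set v : Eu (m + 3) → ℝ := fun z => D z (EuclideanSpace.single 0 1) 2 with hv
  set U : Eu (m + 3) → ℝ := fun z => κ z * u z with hU
  set w : Eu (m + 3) → ℝ := fun z => κ z * v z + u z * pd 0 κ z with hw
  set P : Eu (m + 3) → ℝ := fun z => κ z * (G z 0 - z 0) with hP
  have hGT : ContinuousOn G T := hG.mono hT
  have huc : ContinuousOn u T := (continuous_coord 2).comp_continuousOn hGT
  have hUc : Continuous U := Pool.Agent.Helper656.Sob.cts_mul hTo hκs.continuous hκT huc
  have hPc : Continuous P := Pool.Agent.Helper656.Sob.cts_mul hTo hκs.continuous hκT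
    (((continuous_coord 0).comp_continuousOn hGT).sub (continuous_coord 0).continuousOn)
  have hvi : IntegrableOn v T := by
    have h1 : IntegrableOn (fun z => D z (EuclideanSpace.single 0 1)) T :=
      Integrable.apply_continuousLinearMap (hDl.mono_set hT) (EuclideanSpace.single 0 1)
    exact (EuclideanSpace.proj (2 : Fin (m + 3)) : Eu (m + 3) →L[ℝ] ℝ).integrable_comp h1
  have hpdκ : Continuous (pd 0 κ) := (Pool.Agent.Helper656.Sob.pd_smooth 0 hκs).continuous
  have hwi : Integrable w := by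
    refine Integrable.add ?_ ?_
    · exact Pool.Agent.Helper656.Sob.integrable_test_mul' hκs.continuous hκc hκT hvi.locallyIntegrableOn
    · have := Pool.Agent.Helper656.Sob.integrable_test_mul' hpdκ
        (Pool.Agent.Helper656.Sob.pd_hasCompactSupport 0 hκc)
        ((Pool.Agent.Helper656.Sob.pd_support 0 κ).trans hκT) (huc.locallyIntegrableOn hTo.measurableSet)
      refine this.congr (Eventually.of_forall fun z => ?_)
      exact mul_comm _ _
  have hweak : IsWeakDeriv univ 0 U w :=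
    Pool.Agent.Helper656.Sob.localize hTo 0 hκ (huc.locallyIntegrableOn hTo.measurableSet)
      hvi.locallyIntegrableOn (coord_weak hT isOpen_Om hG hD hDl 0 2)
  have hpd : ∀ k x, pd 0 (mol (bmp (m + 3) k) U) x = mol (bmp (m + 3) k) w x := fun k x =>
    Pool.Agent.Helper656.Sob.pd_mol_weak _ 0 hUc.locallyIntegrable hwi.locallyIntegrable hweak x
  have hκ1' : ∀ z ∈ cthickening δ K, ∀ᶠ x in 𝓝 z, κ x = 1 := fun z hz =>
    eventually_nhdsSet_iff_forall.1 hκ1 z hz
  have hκK : ∀ z ∈ K, κ z = 1 := fun z hz => (hκ1' z (self_subset_cthickening K hz)).self_of_nhds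
  -- contraction
  have hcon : ∀ᶠ k in atTop, ∫⁻ z in K, ‖mol (bmp (m + 3) k) w z‖ₑ ≤ ∫⁻ z in T, ‖v z‖ₑ := by
    filter_upwards [(Pool.Agent.Helper656.Sob.bmp_rOut_tendsto (m + 3)).eventually
      (gt_mem_nhds hδ)] with k hk
    refine mol_contraction _ hwi.aestronglyMeasurable (measurableSet_prodSet hIm hYm)
      hTo.measurableSet ?_
    intro x hx t ht
    have hmem : x - t ∈ cthickening δ K := by
      refine mem_cthickening_of_dist_le (x - t) x δ K hx ?_
      rw [dist_eq_norm, sub_sub_cancel_left, norm_neg]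
      linarith
    refine ⟨hδT hmem, ?_⟩
    have h1 := hκ1' _ hmem
    have h2 : κ (x - t) = 1 := h1.self_of_nhds
    have h3 : pd 0 κ (x - t) = 0 := by
      have h4 : κ =ᶠ[𝓝 (x - t)] fun _ => (1 : ℝ) := h1
      rw [pd, h4.fderiv_eq]; simp
    simp only [hw, h2, h3]
    ring
  -- the pointwise claim
  have hpt : ∀ y ∈ Y, ENNReal.ofReal (1 / 256) ≤
      liminf (fun k => ∫⁻ r in I, ‖pd 0 (mol (bmp (m + 3) k) U) (line r y)‖ₑ) atTop +
        ∫⁻ r in I, ‖P (line r y)‖ₑ := by
    intro y hy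
    have hmemK : ∀ r ∈ I, line r y ∈ K := fun r hr => ⟨hr, hy⟩
    refine pointwise_claim y (G := G) ?_ ?_ ?_ ?_ hUc
    · exact hGT.comp (continuous_line_left y).continuousOn fun r hr => hKT (hmemK r hr)
    · intro r hr
      exact hmap (hT (hKT (hmemK r hr)))
    · intro r hr
      simp only [hP, hκK _ (hmemK r hr), one_mul]
      rfl
    · intro r hr
      simp only [hU, hκK _ (hmemK r hr), one_mul, hu]
  have hsm : ∀ k, ContDiff ℝ 1 (mol (bmp (m + 3) k) U) := fun k =>
    (Pool.Agent.Helper656.Sob.mol_contDiff _ hUc.locallyIntegrable).of_le (by simp)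
  have hm1 : ∀ k, Measurable fun z => ‖pd 0 (mol (bmp (m + 3) k) U) z‖ₑ := fun k =>
    (Pool.Agent.Helper656.Sob.pd_cont 0 (hsm k)).measurable.enorm
  have hm2 : Measurable fun z => ‖P z‖ₑ := hPc.measurable.enorm
  calc ENNReal.ofReal (1 / 256) * volume Y = ∫⁻ _ in Y, ENNReal.ofReal (1 / 256) := by
        rw [setLIntegral_const]
    _ ≤ ∫⁻ y in Y, (liminf (fun k => ∫⁻ r in I, ‖pd 0 (mol (bmp (m + 3) k) U) (line r y)‖ₑ) atTop +
        ∫⁻ r in I, ‖P (line r y)‖ₑ) := setLIntegral_mono' hYm hpt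
    _ = (∫⁻ y in Y, liminf (fun k => ∫⁻ r in I, ‖pd 0 (mol (bmp (m + 3) k) U) (line r y)‖ₑ) atTop) +
        ∫⁻ y in Y, ∫⁻ r in I, ‖P (line r y)‖ₑ := by
        rw [lintegral_add_right _ (meas_line hm2)]
    _ ≤ liminf (fun k => ∫⁻ y in Y, ∫⁻ r in I, ‖pd 0 (mol (bmp (m + 3) k) U) (line r y)‖ₑ) atTop +
        ∫⁻ y in Y, ∫⁻ r in I, ‖P (line r y)‖ₑ := by
        gcongr
        exact lintegral_liminf_le fun k => meas_line (hm1 k)
    _ ≤ (∫⁻ z in T, ‖v z‖ₑ) + ∫⁻ z in T, ‖G z 0 - z 0‖ₑ := by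
        refine add_le_add ?_ ?_
        · refine liminf_le_of_frequently_le' (Eventually.frequently ?_)
          filter_upwards [hcon] with k hk
          rw [tonelli hIm hYm (hm1 k)]
          simp only [hpd]
          exact hk
        · rw [tonelli hIm hYm hm2]
          calc ∫⁻ z in prodSet I Y, ‖P z‖ₑ = ∫⁻ z in K, ‖G z 0 - z 0‖ₑ := by
                refine setLIntegral_congr_fun (measurableSet_prodSet hIm hYm) fun z hz => ?_
                simp only [hP, hκK z hz, one_mul]
            _ ≤ _ := lintegral_mono_set hKT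

end

end Pool.Agent.U590.WS
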