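import Pool.Agent.U590.WS.Domain2

/-! Paths in the target which climb from height `1/4` to height `3/4` oscillate. -/

open Complex Set Filter Topology Metric MeasureTheory
open scoped Real NNReal ENNReal

namespace Pool.Agent.U590.WS

noncomputable section

variable {m : ℕ}

lemma exists_chain {y : ℝ → ℝ} {a b : ℝ} (hab : a ≤ b) (hy : ContinuousOn y (Icc a b)) {x : ℕ → ℝ}
    (hx : Monotone x) (h0 : y a ≤ x 0) (N : ℕ) (hN : x N ≤ y b) :
    ∃ s : ℕ → ℝ, Monotone s ∧ (∀ i, s i ∈ Icc a b) ∧ ∀ i ≤ N, y (s i) = x i := by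
  induction N with
  | zero =>
    obtain ⟨t, ht, hyt⟩ := intermediate_value_Icc hab hy ⟨h0, hN⟩
    exact ⟨fun _ => t, monotone_const, fun _ => ht, fun i hi => by
      rw [Nat.le_zero.1 hi]; exact hyt⟩
  | succ N ih =>
    obtain ⟨s, hs1, hs2, hs3⟩ := ih ((hx (Nat.le_succ N)).trans hN)
    have hsub : Icc (s N) b ⊆ Icc a b := Icc_subset_Icc_left (hs2 N).1
    obtain ⟨t, ht, hyt⟩ := intermediate_value_Icc (hs2 N).2 (hy.mono hsub)
      ⟨by rw [hs3 N le_rfl]; exact hx (Nat.le_succ N), hN⟩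
    refine ⟨fun i => if i ≤ N then s i else t, ?_, ?_, ?_⟩
    · intro i j hij
      dsimp only
      split_ifs with h1 h2 h2
      · exact hs1 hij
      · exact (hs1 h1).trans ht.1
      · omega
      · exact le_rfl
    · intro i
      dsimp only
      split_ifs
      · exact hs2 i
      · exact hsub ht
    · intro i hi
      dsimp only
      split_ifs with h1
      · exact hs3 i h1
      · have : i = N + 1 := by omega
        rw [this]; exact hyt

lemma osc_point {z : Eu (m + 3)} (hz : z ∈ OmT m) (h0 : 0 < z 0) :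
    ∃ j, 1 ≤ j ∧ |(W z).re - (1 / 10) ^ j| < (1 / 10) ^ (j + 1) ∧
      |z 2 - (1 / 10) ^ j * Real.sin (10 * z 0 / (1 / 10) ^ j)| < (1 / 10) ^ (j + 1) := by
  have hz' : Shi z ∈ OmS m := hz
  rcases hz'.2 with h | ⟨j, hj, h⟩
  · exfalso
    have : (Shi z) 0 = z 0 := put_zero _ _
    rw [this] at h
    linarith [h.1]
  · have hW : W (Shi z) = W z - I * (psi (z 0) (W z).re : ℂ) := by simp [Shi]
    rw [hW] at h
    obtain ⟨h1, h2⟩ := h
    rw [re_sub_I] at h1
    refine ⟨j, hj, h1, ?_⟩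
    have h3 : (W z - I * (psi (z 0) (W z).re : ℂ)).im = z 2 - psi (z 0) (W z).re := by
      simp [W]
    rw [h3, psi, amp_eq hj h1, max_eq_left h0.le] at h2
    exact h2

/-- every path in the target climbing from `1/4` to `3/4` has total oscillation at least `9/5` in
the coordinate `2` -/
lemma path_lemma {γ : ℝ → Eu (m + 3)} {a b : ℝ} (hab : a ≤ b) (hγ : ContinuousOn γ (Icc a b))
    (hT : ∀ t ∈ Icc a b, γ t ∈ OmT m) (ha : γ a 0 ≤ 1 / 4) (hb : 3 / 4 ≤ γ b 0) :
    ∃ (N : ℕ) (s : ℕ → ℝ), Monotone s ∧ (∀ i, s i ∈ Icc a b) ∧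
      9 / 5 ≤ ∑ i ∈ Finset.range N, |γ (s (i + 1)) 2 - γ (s i) 2| := by
  have hy : ContinuousOn (fun t => γ t 0) (Icc a b) := (continuous_coord 0).comp_continuousOn hγ
  -- last time at height at most `1/4`
  obtain ⟨t1, ⟨ht1, ht1'⟩, hmax⟩ : ∃ t1, IsGreatest {t | t ∈ Icc a b ∧ γ t 0 ≤ 1 / 4} t1 := by
    have hcl : IsCompact {t | t ∈ Icc a b ∧ γ t 0 ≤ 1 / 4} := by
      have : {t | t ∈ Icc a b ∧ γ t 0 ≤ 1 / 4} = Icc a b ∩ (fun t => γ t 0) ⁻¹' (Iic (1 / 4)) := rfl
      rw [this]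
      exact isCompact_Icc.of_isClosed_subset (hy.preimage_isClosed_of_isClosed isClosed_Icc isClosed_Iic)
        inter_subset_left
    exact hcl.exists_isGreatest ⟨a, ⟨le_rfl, hab⟩, ha⟩
  have hgt : ∀ t ∈ Ioc t1 b, 1 / 4 < γ t 0 := by
    intro t ht
    by_contra h
    push Not at h
    exact absurd (hmax ⟨⟨ht1.1.trans ht.1.le, ht.2⟩, h⟩) (not_le.2 ht.1)
  have ht1b : t1 < b := by
    rcases ht1.2.eq_or_lt with h | h
    · rw [h] at ht1'; linarith
    · exact h
  have hsub : Icc t1 b ⊆ Icc a b := Icc_subset_Icc_left ht1.1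
  have hsub' : Ioc t1 b ⊆ Icc a b := Ioc_subset_Icc_self.trans hsub
  -- the index of the tube
  obtain ⟨j, hj, hjb, -⟩ := osc_point (hT b ⟨hab, le_rfl⟩) (by linarith)
  have hall : ∀ t ∈ Ioc t1 b, |(W (γ t)).re - (1 / 10) ^ j| < (1 / 10) ^ (j + 1) := by
    have hc : ContinuousOn (fun t => (W (γ t)).re) (Ioc t1 b) :=
      continuous_re.comp_continuousOn (continuous_W.comp_continuousOn (hγ.mono hsub'))
    have hpre : IsPreconnected ((fun t => (W (γ t)).re) '' Ioc t1 b) := isPreconnected_Ioc.image _ hc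
    set u : Set ℝ := {x | |x - (1 / 10) ^ j| < (1 / 10) ^ (j + 1)} with hu
    set v : Set ℝ := {x | ∃ i, i ≠ j ∧ |x - (1 / 10) ^ i| < (1 / 10) ^ (i + 1)} with hv
    have huo : IsOpen u := isOpen_lt (by fun_prop) continuous_const
    have hvo : IsOpen v := by
      have : v = ⋃ i, ⋃ (_ : i ≠ j), {x : ℝ | |x - (1 / 10) ^ i| < (1 / 10) ^ (i + 1)} := by
        ext x; simp [hv]
      rw [this]
      exact isOpen_iUnion fun i => isOpen_iUnion fun _ => isOpen_lt (by fun_prop) continuous_const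
    have hd : Disjoint u v := by
      rw [Set.disjoint_left]
      rintro x hx ⟨i, hi, hx'⟩
      exact hi (sq_disj hx' hx)
    have hcov : (fun t => (W (γ t)).re) '' Ioc t1 b ⊆ u ∪ v := by
      rintro _ ⟨t, ht, rfl⟩
      obtain ⟨i, -, hi, -⟩ := osc_point (hT t (hsub' ht)) (by linarith [hgt t ht])
      by_cases hij : i = j
      · left
        rw [hij] at hi
        exact hi
      · right; exact ⟨i, hij, hi⟩
    have hne : ((fun t => (W (γ t)).re) '' Ioc t1 b ∩ u).Nonempty :=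
      ⟨_, ⟨b, ⟨ht1b, le_rfl⟩, rfl⟩, hjb⟩
    have := hpre.subset_left_of_subset_union huo hvo hd hcov hne
    intro t ht
    exact this ⟨t, ht, rfl⟩
  have hosc : ∀ t ∈ Ioc t1 b,
      |γ t 2 - (1 / 10) ^ j * Real.sin (10 * γ t 0 / (1 / 10) ^ j)| < (1 / 10) ^ (j + 1) := by
    intro t ht
    obtain ⟨i, -, hi, hi'⟩ := osc_point (hT t (hsub' ht)) (by linarith [hgt t ht])
    have : i = j := sq_disj hi (hall t ht)
    rwa [this] at hi'
  -- heights
  set ρ : ℝ := (1 / 10) ^ j with hρ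
  have hρ0 : 0 < ρ := by positivity
  set q : ℕ := 10 ^ j with hq
  have hqρ : (q : ℝ) * ρ = 1 := by
    rw [hq, hρ]; push_cast; rw [← mul_pow]; norm_num
  have hρ1 : ρ ≤ 1 / 10 := by
    rw [hρ]
    calc ((1 : ℝ) / 10) ^ j ≤ (1 / 10) ^ 1 := pow_le_pow_of_le_one (by norm_num) (by norm_num) hj
      _ = 1 / 10 := by norm_num
  set x : ℕ → ℝ := fun i => ρ * π * ((q : ℝ) + i + 1 / 2) / 10 with hx
  have hxm : Monotone x := by
    intro i i' h
    simp only [hx]
    have : (i : ℝ) ≤ i' := by exact_mod_cast h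
    have hπ := Real.pi_pos
    gcongr
  have hπ3 := Real.pi_gt_three
  have hπ4 : π < 3.15 := Real.pi_lt_d2
  have hx0 : 1 / 4 < x 0 := by
    have e : x 0 = (q * ρ) * π / 10 + ρ * π / 20 := by simp only [hx]; push_cast; ring
    rw [e, hqρ]
    have : 0 < ρ * π := by positivity
    linarith
  have hxq : x q ≤ 3 / 4 := by
    have e : x q = (q * ρ) * (2 * π) / 10 + ρ * π / 20 := by simp only [hx]; ring
    rw [e, hqρ]
    have : ρ * π ≤ 1 / 10 * 3.15 := by
      apply mul_le_mul hρ1 hπ4.le (by positivity) (by norm_num)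
    linarith
  obtain ⟨s, hs1, hs2, hs3⟩ := exists_chain ht1.2 (hy.mono hsub) hxm (by linarith) q (by linarith)
  refine ⟨q, s, hs1, fun i => hsub (hs2 i), ?_⟩
  have hmem : ∀ i ≤ q, s i ∈ Ioc t1 b := by
    intro i hi
    refine ⟨lt_of_le_of_ne (hs2 i).1 fun h => ?_, (hs2 i).2⟩
    have h1 := hs3 i hi
    simp only at h1
    rw [← h] at h1
    have := hxm (Nat.zero_le i)
    linarith
  have hsin : ∀ i ≤ q, |γ (s i) 2 - ρ * (-1) ^ (q + i)| < ρ / 10 := by
    intro i hi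
    have h1 := hosc (s i) (hmem i hi)
    have h2 := hs3 i hi
    simp only at h2
    rw [h2] at h1
    have h3 : 10 * x i / ρ = ((q + i : ℕ) : ℝ) * π + π / 2 := by
      simp only [hx]; push_cast; field_simp
    rw [h3, Real.sin_add_pi_div_two, Real.cos_nat_mul_pi, pow_succ, ← hρ] at h1
    convert h1 using 1
    ring
  have hterm : ∀ i ∈ Finset.range q, 9 / 5 * ρ ≤ |γ (s (i + 1)) 2 - γ (s i) 2| := by
    intro i hi
    have hi' : i < q := Finset.mem_range.1 hi
    have h1 := hsin i hi'.le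
    have h2 := hsin (i + 1) hi'
    have e : ρ * (-1) ^ (q + (i + 1)) = -(ρ * (-1) ^ (q + i)) := by rw [← add_assoc, pow_succ]; ring
    rw [e] at h2
    have h3 : |ρ * (-1) ^ (q + i)| = ρ := by
      rw [abs_mul, abs_neg_one_pow, mul_one, abs_of_pos hρ0]
    set c := ρ * (-1) ^ (q + i) with hc
    have h4 : 2 * ρ ≤ |γ (s (i + 1)) 2 - γ (s i) 2| + ρ / 10 + ρ / 10 := by
      calc 2 * ρ = |2 * c| := by rw [abs_mul, abs_two, h3]
        _ = |-(γ (s (i + 1)) 2 - γ (s i) 2) + (γ (s (i + 1)) 2 - -c) + -(γ (s i) 2 - c)| := by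
            congr 1; ring
        _ ≤ |-(γ (s (i + 1)) 2 - γ (s i) 2) + (γ (s (i + 1)) 2 - -c)| + |-(γ (s i) 2 - c)| :=
            abs_add_le _ _
        _ ≤ |-(γ (s (i + 1)) 2 - γ (s i) 2)| + |γ (s (i + 1)) 2 - -c| + |-(γ (s i) 2 - c)| := by
            gcongr; exact abs_add_le _ _
        _ ≤ _ := by rw [abs_neg, abs_neg]; gcongr
    linarith
  calc (9 / 5 : ℝ) = ∑ _i ∈ Finset.range q, 9 / 5 * ρ := by
        rw [Finset.sum_const, Finset.card_range, nsmul_eq_mul]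
        calc (9 / 5 : ℝ) = 9 / 5 * (q * ρ) := by rw [hqρ]; ring
          _ = _ := by ring
    _ ≤ _ := Finset.sum_le_sum hterm

end

end Pool.Agent.U590.WS
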