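import Mathlib

/-! Planar homeomorphisms `hh e` used in the counterexample. -/

open Complex Set Filter Topology Metric
open scoped Real

namespace Pool.Agent.U590.WS

noncomputable section

/-- the direction of `w` -/
def dir (w : ℂ) : ℂ := ((‖w‖⁻¹ : ℝ) : ℂ) * w

lemma norm_dir {w : ℂ} (hw : w ≠ 0) : ‖dir w‖ = 1 := by
  have : ‖w‖ ≠ 0 := norm_ne_zero_iff.2 hw
  simp [dir, this]

lemma norm_dir_le (w : ℂ) : ‖dir w‖ ≤ 1 := by
  by_cases hw : w = 0
  · subst hw; simp [dir]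
  · exact (norm_dir hw).le

lemma norm_mul_dir (w : ℂ) : (‖w‖ : ℂ) * dir w = w := by
  by_cases hw : w = 0
  · subst hw; simp [dir]
  · have : (‖w‖ : ℂ) ≠ 0 := by exact_mod_cast norm_ne_zero_iff.2 hw
    simp only [dir, ofReal_inv]
    field_simp

lemma dir_mul_pos {r : ℝ} (hr : 0 < r) {v : ℂ} (hv : ‖v‖ = 1) : dir ((r : ℂ) * v) = v := by
  have h1 : ‖(r : ℂ) * v‖ = r := by simp [hv, abs_of_pos hr]
  have : (r : ℂ) ≠ 0 := by exact_mod_cast hr.ne'
  simp only [dir, h1, ofReal_inv]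
  field_simp

lemma dir_sub (w w' : ℂ) (h : ‖w'‖ ≤ ‖w‖) : ‖w'‖ * ‖dir w - dir w'‖ ≤ 2 * ‖w - w'‖ := by
  by_cases hw' : w' = 0
  · subst hw'; simp
  have hn' : 0 < ‖w'‖ := norm_pos_iff.2 hw'
  have hn : 0 < ‖w‖ := lt_of_lt_of_le hn' h
  have e1 : ‖w'‖ * ‖dir w - dir w'‖ = ‖(‖w'‖ : ℂ) * (dir w - dir w')‖ := by
    simp
  have e2 : (‖w'‖ : ℂ) * (dir w - dir w') = (w - w') + ((((‖w'‖ / ‖w‖ - 1 : ℝ)) : ℂ) * w) := by
    have h1 : (‖w'‖ : ℂ) ≠ 0 := by exact_mod_cast hn'.ne'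
    have h2 : (‖w‖ : ℂ) ≠ 0 := by exact_mod_cast hn.ne'
    rw [mul_sub, norm_mul_dir w']
    simp only [dir, ofReal_inv, ofReal_sub, ofReal_div, ofReal_one]
    field_simp
    ring
  rw [e1, e2]
  have h3 : ‖(((‖w'‖ / ‖w‖ - 1 : ℝ)) : ℂ) * w‖ = ‖w‖ - ‖w'‖ := by
    rw [norm_mul, norm_real, Real.norm_eq_abs, abs_of_nonpos]
    · field_simp
      ring
    · rw [sub_nonpos]
      exact (div_le_one hn).2 h
  calc ‖(w - w') + (((‖w'‖ / ‖w‖ - 1 : ℝ)) : ℂ) * w‖ ≤ ‖w - w'‖ + ‖(((‖w'‖ / ‖w‖ - 1 : ℝ)) : ℂ) * w‖ :=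
        norm_add_le _ _
    _ = ‖w - w'‖ + (‖w‖ - ‖w'‖) := by rw [h3]
    _ ≤ ‖w - w'‖ + ‖w - w'‖ := by gcongr; exact norm_sub_norm_le _ _
    _ = _ := by ring

/-- maps `w ↦ φ w * w / |w|` are Lipschitz if `φ` is Lipschitz and `|φ w| ≤ |w|`. -/
lemma polar_lip {φ : ℂ → ℂ} {A : ℝ} (h1 : ∀ w w', ‖φ w - φ w'‖ ≤ A * ‖w - w'‖)
    (h2 : ∀ w, ‖φ w‖ ≤ ‖w‖) (w w' : ℂ) :
    ‖φ w * dir w - φ w' * dir w'‖ ≤ (A + 2) * ‖w - w'‖ := by
  wlog h : ‖w'‖ ≤ ‖w‖ generalizing w w'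
  · rw [norm_sub_rev, norm_sub_rev w]
    exact this w' w (le_of_not_ge h)
  have e : φ w * dir w - φ w' * dir w' = (φ w - φ w') * dir w + φ w' * (dir w - dir w') := by ring
  rw [e]
  refine (norm_add_le _ _).trans ?_
  have a1 : ‖(φ w - φ w') * dir w‖ ≤ A * ‖w - w'‖ := by
    rw [norm_mul]
    calc ‖φ w - φ w'‖ * ‖dir w‖ ≤ ‖φ w - φ w'‖ * 1 := by gcongr; exact norm_dir_le w
      _ ≤ A * ‖w - w'‖ := by rw [mul_one]; exact h1 w w'
  have a2 : ‖φ w' * (dir w - dir w')‖ ≤ 2 * ‖w - w'‖ := by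
    rw [norm_mul]
    exact (mul_le_mul_of_nonneg_right (h2 w') (norm_nonneg _)).trans (dir_sub w w' h)
  linarith

/-! ### the radial profile -/

/-- radial profile of the exchange map -/
def sg (r : ℝ) : ℝ := max (r / 10) (min r (2 * r - 4))

/-- its inverse -/
def sgi (r : ℝ) : ℝ := min (10 * r) (max r ((r + 4) / 2))

/-- angular profile of the exchange map -/
def tau (r : ℝ) : ℝ := π * max 0 (min 1 (min (5 / 2 * (r - 2)) (4 - r)))

lemma sgi_sg {r : ℝ} (hr : 0 ≤ r) : sgi (sg r) = r := by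
  unfold sgi sg
  simp only [max_def, min_def]
  split_ifs <;> linarith

lemma sg_sgi {r : ℝ} (hr : 0 ≤ r) : sg (sgi r) = r := by
  unfold sgi sg
  simp only [max_def, min_def]
  split_ifs <;> linarith

lemma sg_nonneg {r : ℝ} (hr : 0 ≤ r) : 0 ≤ sg r := le_max_of_le_left (by positivity)

lemma sgi_nonneg {r : ℝ} (hr : 0 ≤ r) : 0 ≤ sgi r :=
  le_min (by positivity) (le_max_of_le_left hr)

lemma sg_le {r : ℝ} (hr : 0 ≤ r) : sg r ≤ r :=
  max_le (by linarith) (min_le_left _ _)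

lemma sg_ge (r : ℝ) : r / 10 ≤ sg r := le_max_left _ _

lemma sg_zero : sg 0 = 0 := by norm_num [sg]

lemma sg_pos {r : ℝ} (hr : 0 < r) : 0 < sg r := lt_max_of_lt_left (by positivity)

lemma sgi_pos {r : ℝ} (hr : 0 < r) : 0 < sgi r :=
  lt_min (by positivity) (lt_max_of_lt_left hr)

lemma sg_small {r : ℝ} (hr : r ≤ 2) : sg r = r / 10 := by
  unfold sg
  simp only [max_def, min_def]
  split_ifs <;> linarith

lemma sg_large {r : ℝ} (hr : 4 ≤ r) : sg r = r := by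
  unfold sg
  simp only [max_def, min_def]
  split_ifs <;> linarith

lemma tau_small {r : ℝ} (hr : r ≤ 2) : tau r = 0 := by
  unfold tau
  have : max 0 (min 1 (min (5 / 2 * (r - 2)) (4 - r))) = 0 := by
    simp only [max_def, min_def]
    split_ifs <;> linarith
  rw [this, mul_zero]

lemma tau_large {r : ℝ} (hr : 4 ≤ r) : tau r = 0 := by
  unfold tau
  have : max 0 (min 1 (min (5 / 2 * (r - 2)) (4 - r))) = 0 := by
    simp only [max_def, min_def]
    split_ifs <;> linarith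
  rw [this, mul_zero]

lemma tau_mid {r : ℝ} (h1 : 12 / 5 ≤ r) (h2 : r ≤ 3) : tau r = π := by
  unfold tau
  have : max 0 (min 1 (min (5 / 2 * (r - 2)) (4 - r))) = 1 := by
    simp only [max_def, min_def]
    split_ifs <;> linarith
  rw [this, mul_one]

/-- location of the radius -/
lemma sg_mid {r : ℝ} (h1 : 9 / 10 < sg r) (h2 : sg r < 6 / 5) : 12 / 5 ≤ r ∧ r ≤ 3 ∧
    sg r = 2 * r - 4 := by
  unfold sg at *
  simp only [max_def, min_def] at *
  split_ifs at * <;> refine ⟨?_, ?_, ?_⟩ <;> linarith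

lemma sg_lip (r s : ℝ) : |sg r - sg s| ≤ 2 * |r - s| := by
  unfold sg
  refine (abs_max_sub_max_le_max _ _ _ _).trans (max_le ?_ ?_)
  · rw [← sub_div, abs_div, abs_of_pos (by norm_num : (0:ℝ) < 10)]
    linarith [abs_nonneg (r - s)]
  · refine (abs_min_sub_min_le_max _ _ _ _).trans (max_le ?_ ?_)
    · linarith [abs_nonneg (r - s)]
    · have : 2 * r - 4 - (2 * s - 4) = 2 * (r - s) := by ring
      rw [this, abs_mul, abs_two]

lemma tau_lip (r s : ℝ) : |tau r - tau s| ≤ 10 * |r - s| := by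
  unfold tau
  rw [← mul_sub, abs_mul, abs_of_pos Real.pi_pos]
  have h : |max 0 (min 1 (min (5 / 2 * (r - 2)) (4 - r))) -
      max 0 (min 1 (min (5 / 2 * (s - 2)) (4 - s)))| ≤ 5 / 2 * |r - s| := by
    refine (abs_max_sub_max_le_max _ _ _ _).trans (max_le ?_ ?_)
    · simp
    · refine (abs_min_sub_min_le_max _ _ _ _).trans (max_le ?_ ?_)
      · simp
      · refine (abs_min_sub_min_le_max _ _ _ _).trans (max_le ?_ ?_)
        · have : 5 / 2 * (r - 2) - 5 / 2 * (s - 2) = 5 / 2 * (r - s) := by ring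
          rw [this, abs_mul, abs_of_pos (by norm_num : (0:ℝ) < 5 / 2)]
        · have : 4 - r - (4 - s) = -(r - s) := by ring
          rw [this, abs_neg]
          linarith [abs_nonneg (r - s)]
  have h4 : π ≤ 4 := Real.pi_le_four
  calc π * _ ≤ 4 * (5 / 2 * |r - s|) := by gcongr
    _ = _ := by ring

/-- the curve `M r = sg r * exp (i tau r)` -/
def M (r : ℝ) : ℂ := (sg r : ℂ) * exp (I * (tau r : ℂ))

lemma norm_M {r : ℝ} (hr : 0 ≤ r) : ‖M r‖ = sg r := by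
  rw [M, norm_mul, norm_exp_I_mul_ofReal, mul_one, norm_real, Real.norm_eq_abs,
    abs_of_nonneg (sg_nonneg hr)]

lemma exp_sub_le (a b : ℝ) : ‖exp (I * (a : ℂ)) - exp (I * (b : ℂ))‖ ≤ |a - b| := by
  have e : exp (I * (a : ℂ)) - exp (I * (b : ℂ)) =
      exp (I * (b : ℂ)) * (exp (I * ((a - b : ℝ) : ℂ)) - 1) := by
    rw [mul_sub, ← exp_add, mul_one]
    congr 2
    push_cast
    ring
  rw [e, norm_mul, norm_exp_I_mul_ofReal, one_mul]
  exact Real.norm_exp_I_mul_ofReal_sub_one_le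

lemma M_lip {r s : ℝ} (hr : 0 ≤ r) (hs : 0 ≤ s) : ‖M r - M s‖ ≤ 42 * |r - s| := by
  wlog h : s ≤ r generalizing r s
  · rw [norm_sub_rev, abs_sub_comm]
    exact this hs hr (le_of_not_ge h)
  have e : M r - M s = ((sg r - sg s : ℝ) : ℂ) * exp (I * (tau r : ℂ)) +
      (sg s : ℂ) * (exp (I * (tau r : ℂ)) - exp (I * (tau s : ℂ))) := by
    simp only [M]; push_cast; ring
  rw [e]
  refine (norm_add_le _ _).trans ?_
  have a1 : ‖((sg r - sg s : ℝ) : ℂ) * exp (I * (tau r : ℂ))‖ ≤ 2 * |r - s| := by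
    rw [norm_mul, norm_exp_I_mul_ofReal, mul_one, norm_real]
    exact sg_lip r s
  have a2 : ‖(sg s : ℂ) * (exp (I * (tau r : ℂ)) - exp (I * (tau s : ℂ)))‖ ≤ 40 * |r - s| := by
    rcases le_total 4 s with h4 | h4
    · rw [tau_large h4, tau_large (h4.trans h)]
      simp
    · rw [norm_mul, norm_real, Real.norm_eq_abs, abs_of_nonneg (sg_nonneg hs)]
      calc sg s * ‖exp (I * (tau r : ℂ)) - exp (I * (tau s : ℂ))‖ ≤ 4 * (10 * |r - s|) := by
            gcongr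
            · exact (sg_le hs).trans h4
            · exact (exp_sub_le _ _).trans (tau_lip _ _)
        _ = _ := by ring
  linarith

/-- scaled curve -/
def Me (e r : ℝ) : ℂ := (e : ℂ) * M (r / e)

lemma norm_Me {e r : ℝ} (he : 0 < e) (hr : 0 ≤ r) : ‖Me e r‖ = e * sg (r / e) := by
  rw [Me, norm_mul, norm_M (by positivity), norm_real, Real.norm_eq_abs, abs_of_pos he]

lemma norm_Me_le {e r : ℝ} (he : 0 < e) (hr : 0 ≤ r) : ‖Me e r‖ ≤ r := by
  rw [norm_Me he hr]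
  calc e * sg (r / e) ≤ e * (r / e) := by gcongr; exact sg_le (by positivity)
    _ = r := by field_simp

lemma Me_lip {e r s : ℝ} (he : 0 < e) (hr : 0 ≤ r) (hs : 0 ≤ s) :
    ‖Me e r - Me e s‖ ≤ 42 * |r - s| := by
  rw [Me, Me, ← mul_sub, norm_mul, norm_real, Real.norm_eq_abs, abs_of_pos he]
  calc e * ‖M (r / e) - M (s / e)‖ ≤ e * (42 * |r / e - s / e|) := by
        gcongr; exact M_lip (by positivity) (by positivity)
    _ = 42 * |r - s| := by
        rw [← sub_div, abs_div, abs_of_pos he]; field_simp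

lemma Me_large {e r : ℝ} (he : 0 < e) (hr : 4 * e ≤ r) : Me e r = r := by
  have h : 4 ≤ r / e := by rw [le_div_iff₀ he]; exact hr
  rw [Me, M, sg_large h, tau_large h]
  have : (e : ℂ) ≠ 0 := by exact_mod_cast he.ne'
  push_cast
  simp only [mul_zero, exp_zero, mul_one]
  field_simp

lemma Me_small {e r : ℝ} (he : 0 < e) (hr : r ≤ 2 * e) : Me e r = r / 10 := by
  have h : r / e ≤ 2 := by rw [div_le_iff₀ he]; exact hr
  rw [Me, M, sg_small h, tau_small h]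
  have : (e : ℂ) ≠ 0 := by exact_mod_cast he.ne'
  push_cast
  simp only [mul_zero, exp_zero, mul_one]
  field_simp

/-! ### the collapse -/

/-- the size function whose zero (nonpositive) set is the collapsed sector -/
def dd (w : ℂ) : ℝ := max (‖w‖ + 2 * min w.re 0) (‖w‖ - 3)

/-- regularised size function -/
def de (e : ℝ) (w : ℂ) : ℝ := max (dd w) (e * ‖w‖)

lemma dd_le (w : ℂ) : dd w ≤ ‖w‖ := by
  refine max_le ?_ (by linarith)
  linarith [min_le_right w.re 0]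

lemma de_le {e : ℝ} (he : e ≤ 1) (w : ℂ) : de e w ≤ ‖w‖ :=
  max_le (dd_le w) (mul_le_of_le_one_left (norm_nonneg w) he)

lemma de_ge (e : ℝ) (w : ℂ) : e * ‖w‖ ≤ de e w := le_max_right _ _

lemma de_nonneg {e : ℝ} (he : 0 ≤ e) (w : ℂ) : 0 ≤ de e w :=
  (by positivity : 0 ≤ e * ‖w‖).trans (de_ge e w)

lemma dd_lip (w w' : ℂ) : |dd w - dd w'| ≤ 3 * ‖w - w'‖ := by
  have h0 : |‖w‖ - ‖w'‖| ≤ ‖w - w'‖ := abs_norm_sub_norm_le w w'
  have h1 : |min w.re 0 - min w'.re 0| ≤ ‖w - w'‖ := by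
    refine (abs_min_sub_min_le_max _ _ _ _).trans (max_le ?_ (by simp))
    have := Complex.abs_re_le_norm (w - w')
    simpa using this
  refine (abs_max_sub_max_le_max _ _ _ _).trans (max_le ?_ ?_)
  · have : ‖w‖ + 2 * min w.re 0 - (‖w'‖ + 2 * min w'.re 0) =
        (‖w‖ - ‖w'‖) + 2 * (min w.re 0 - min w'.re 0) := by ring
    rw [this]
    refine (abs_add_le _ _).trans ?_
    rw [abs_mul, abs_two]
    linarith
  · have : ‖w‖ - 3 - (‖w'‖ - 3) = ‖w‖ - ‖w'‖ := by ring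
    rw [this]
    linarith [norm_nonneg (w - w')]

lemma de_lip {e : ℝ} (he : 0 ≤ e) (he1 : e ≤ 1) (w w' : ℂ) : |de e w - de e w'| ≤ 3 * ‖w - w'‖ := by
  refine (abs_max_sub_max_le_max _ _ _ _).trans (max_le (dd_lip w w') ?_)
  rw [← mul_sub, abs_mul, abs_of_nonneg he]
  have h0 : |‖w‖ - ‖w'‖| ≤ ‖w - w'‖ := abs_norm_sub_norm_le w w'
  calc e * |‖w‖ - ‖w'‖| ≤ 1 * ‖w - w'‖ := by gcongr
    _ ≤ 3 * ‖w - w'‖ := by linarith [norm_nonneg (w - w')]

/-- the planar homeomorphism with parameter `e` -/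
def hh (e : ℝ) (w : ℂ) : ℂ := Me e (de e w) * dir w

lemma norm_hh {e : ℝ} (he : 0 < e) (w : ℂ) : ‖hh e w‖ = e * sg (de e w / e) := by
  rw [hh, norm_mul, norm_Me he (de_nonneg he.le w)]
  by_cases hw : w = 0
  · subst hw
    simp [de, dd, sg_zero]
  · rw [norm_dir hw, mul_one]

/-- uniform Lipschitz bound -/
lemma hh_lip {e : ℝ} (he : 0 < e) (he1 : e ≤ 1) (w w' : ℂ) :
    ‖hh e w - hh e w'‖ ≤ 128 * ‖w - w'‖ := by
  have := polar_lip (φ := fun w => Me e (de e w)) (A := 126) (fun w w' => ?_) (fun w => ?_) w w'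
  · norm_num at this; exact this
  · calc ‖Me e (de e w) - Me e (de e w')‖ ≤ 42 * |de e w - de e w'| :=
          Me_lip he (de_nonneg he.le _) (de_nonneg he.le _)
      _ ≤ 42 * (3 * ‖w - w'‖) := by gcongr; exact de_lip he.le he1 w w'
      _ = 126 * ‖w - w'‖ := by ring
  · exact (norm_Me_le he (de_nonneg he.le w)).trans (de_le he1 w)

lemma hh_continuous {e : ℝ} (he : 0 < e) (he1 : e ≤ 1) : Continuous (hh e) := by
  have : LipschitzWith 128 (hh e) := LipschitzWith.of_dist_le_mul fun w w' => by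
    rw [dist_eq_norm, dist_eq_norm]; exact hh_lip he he1 w w'
  exact this.continuous

/-- radial inverse of the size function in direction `v` -/
def rad (e ρ : ℝ) (v : ℂ) : ℝ := min (ρ / max e (1 + 2 * min v.re 0)) (ρ + 3)

lemma de_smul {e r : ℝ} (hr : 0 ≤ r) {v : ℂ} (hv : ‖v‖ = 1) :
    de e ((r : ℂ) * v) = max (r * max e (1 + 2 * min v.re 0)) (r - 3) := by
  have h1 : ‖(r : ℂ) * v‖ = r := by simp [hv, abs_of_nonneg hr]
  have h2 : ((r : ℂ) * v).re = r * v.re := by simp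
  have h3 : min (r * v.re) 0 = r * min v.re 0 := by
    rw [mul_min_of_nonneg _ _ hr, mul_zero]
  rw [de, dd, h1, h2, h3, mul_max_of_nonneg _ _ hr]
  have : r + 2 * (r * min v.re 0) = r * (1 + 2 * min v.re 0) := by ring
  rw [this, mul_comm e r]
  rw [max_right_comm, max_comm (r * (1 + 2 * min v.re 0))]

lemma rad_de {e r : ℝ} (he : 0 < e) (he1 : e ≤ 1) (hr : 0 ≤ r) {v : ℂ} (hv : ‖v‖ = 1) :
    rad e (de e ((r : ℂ) * v)) v = r := by
  rw [de_smul hr hv, rad]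
  set A := max e (1 + 2 * min v.re 0) with hA
  have hA0 : 0 < A := lt_max_of_lt_left he
  have hA1 : A ≤ 1 := max_le he1 (by linarith [min_le_right v.re 0])
  rcases le_total (r * A) (r - 3) with h | h
  · rw [max_eq_right h, min_eq_right]
    · ring
    · rw [le_div_iff₀ hA0]; linarith
  · rw [max_eq_left h, mul_div_assoc, div_self hA0.ne', mul_one, min_eq_left]
    linarith

lemma de_rad {e ρ : ℝ} (he : 0 < e) (he1 : e ≤ 1) (hρ : 0 ≤ ρ) {v : ℂ} (hv : ‖v‖ = 1) :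
    de e ((rad e ρ v : ℂ) * v) = ρ := by
  have hA0 : 0 < max e (1 + 2 * min v.re 0) := lt_max_of_lt_left he
  have hr : 0 ≤ rad e ρ v := le_min (by positivity) (by positivity)
  rw [de_smul hr hv, rad]
  set A := max e (1 + 2 * min v.re 0) with hA
  rcases le_total (ρ / A) (ρ + 3) with h | h
  · rw [min_eq_left h, div_mul_cancel₀ _ hA0.ne', max_eq_left]
    linarith
  · rw [min_eq_right h, max_eq_right]
    · ring
    · rw [le_div_iff₀ hA0] at h; linarith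

lemma rad_pos {e ρ : ℝ} (he : 0 < e) (hρ : 0 < ρ) (v : ℂ) : 0 < rad e ρ v :=
  lt_min (div_pos hρ (lt_max_of_lt_left he)) (by positivity)

/-- the inverse of `hh e` -/
def hhi (e : ℝ) (w : ℂ) : ℂ :=
  let ρ := e * sgi (‖w‖ / e)
  let v := exp (-(I * (tau (ρ / e) : ℂ))) * dir w
  (rad e ρ v : ℂ) * v

lemma hhi_hh {e : ℝ} (he : 0 < e) (he1 : e ≤ 1) (w : ℂ) : hhi e (hh e w) = w := by
  by_cases hw : w = 0
  · subst hw
    simp [hh, hhi, dir]
  have hn : 0 < ‖w‖ := norm_pos_iff.2 hw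
  have hd : 0 < de e w := lt_of_lt_of_le (mul_pos he hn) (de_ge e w)
  have hs : 0 < sg (de e w / e) := sg_pos (by positivity)
  have e1 : e * sgi (‖hh e w‖ / e) = de e w := by
    rw [norm_hh he, mul_div_cancel_left₀ _ he.ne', sgi_sg (by positivity)]
    field_simp
  have e2 : dir (hh e w) = exp (I * (tau (de e w / e) : ℂ)) * dir w := by
    have : hh e w = ((e * sg (de e w / e) : ℝ) : ℂ) * (exp (I * (tau (de e w / e) : ℂ)) * dir w) := by
      simp only [hh, Me, M]; push_cast; ring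
    rw [this, dir_mul_pos (by positivity)]
    rw [norm_mul, norm_exp_I_mul_ofReal, norm_dir hw, one_mul]
  have e3 : exp (-(I * (tau (de e w / e) : ℂ))) * (exp (I * (tau (de e w / e) : ℂ)) * dir w) = dir w := by
    rw [← mul_assoc, ← exp_add]; simp
  simp only [hhi, e1, e2, e3]
  have h4 := rad_de he he1 hn.le (norm_dir hw)
  rw [norm_mul_dir] at h4
  rw [h4, norm_mul_dir]

lemma hh_hhi {e : ℝ} (he : 0 < e) (he1 : e ≤ 1) (w : ℂ) : hh e (hhi e w) = w := by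
  by_cases hw : w = 0
  · subst hw
    simp [hh, hhi, dir]
  have hn : 0 < ‖w‖ := norm_pos_iff.2 hw
  set ρ := e * sgi (‖w‖ / e) with hρ
  have hρ0 : 0 < ρ := mul_pos he (sgi_pos (by positivity))
  set v := exp (-(I * (tau (ρ / e) : ℂ))) * dir w with hv
  have hv1 : ‖v‖ = 1 := by
    have : -(I * (tau (ρ / e) : ℂ)) = I * ((-tau (ρ / e) : ℝ) : ℂ) := by push_cast; ring
    rw [hv, norm_mul, norm_dir hw, mul_one, this, norm_exp_I_mul_ofReal]
  have e0 : hhi e w = (rad e ρ v : ℂ) * v := rfl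
  have e1 : de e (hhi e w) = ρ := by rw [e0, de_rad he he1 hρ0.le hv1]
  have e2 : dir (hhi e w) = v := by rw [e0, dir_mul_pos (rad_pos he hρ0 v) hv1]
  have e3 : ρ / e = sgi (‖w‖ / e) := by rw [hρ]; field_simp
  rw [hh, e1, e2, Me, M, e3, sg_sgi (by positivity), hv, e3]
  have e4 : exp (I * (tau (sgi (‖w‖ / e)) : ℂ)) * exp (-(I * (tau (sgi (‖w‖ / e)) : ℂ))) = 1 := by
    rw [← exp_add]; simp
  have e5 : (e : ℂ) * ((‖w‖ / e : ℝ) : ℂ) = ‖w‖ := by
    have : (e : ℂ) ≠ 0 := by exact_mod_cast he.ne'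
    push_cast; field_simp
  calc (e : ℂ) * (((‖w‖ / e : ℝ) : ℂ) * exp (I * (tau (sgi (‖w‖ / e)) : ℂ))) *
        (exp (-(I * (tau (sgi (‖w‖ / e)) : ℂ))) * dir w)
      = ((e : ℂ) * ((‖w‖ / e : ℝ) : ℂ)) *
        (exp (I * (tau (sgi (‖w‖ / e)) : ℂ)) * exp (-(I * (tau (sgi (‖w‖ / e)) : ℂ)))) * dir w := by
        ring
    _ = w := by rw [e4, e5, mul_one, norm_mul_dir]

lemma hh_norm_ge {e : ℝ} (he : 0 < e) (w : ℂ) : e / 10 * ‖w‖ ≤ ‖hh e w‖ := by
  rw [norm_hh he]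
  calc e / 10 * ‖w‖ = e * (e * ‖w‖ / e / 10) := by field_simp
    _ ≤ e * (de e w / e / 10) := by gcongr; exact de_ge e w
    _ ≤ e * sg (de e w / e) := by gcongr; exact sg_ge _

/-- `hh e` as a homeomorphism of the plane -/
def hhHomeo {e : ℝ} (he : 0 < e) (he1 : e ≤ 1) : ℂ ≃ₜ ℂ :=
  (Equiv.mk (hh e) (hhi e) (hhi_hh he he1) (hh_hhi he he1)).toHomeomorphOfContinuousClosed
    (hh_continuous he he1) (by
      refine IsProperMap.isClosedMap ?_
      refine isProperMap_iff_tendsto_cocompact.2 ⟨hh_continuous he he1, ?_⟩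
      refine tendsto_cocompact_of_tendsto_dist_comp_atTop (0 : ℂ) ?_
      have h1 : Tendsto (fun w : ℂ => e / 10 * ‖w‖) (cocompact ℂ) atTop :=
        (tendsto_norm_cocompact_atTop).const_mul_atTop (by positivity)
      refine tendsto_atTop_mono (fun w => ?_) h1
      rw [dist_zero_right]
      exact hh_norm_ge he w)

end

end Pool.Agent.U590.WS
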