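import Pool.Agent.U590.WS.Plane

/-! Behaviour of the planar homeomorphisms on the small squares. -/

open Complex Set Filter Topology Metric
open scoped Real

namespace Pool.Agent.U590.WS

noncomputable section

/-- the squares `S_j` -/
def sq (j : ℕ) : Set ℂ := {w | |w.re - (1 / 10) ^ j| < (1 / 10) ^ (j + 1) ∧ |w.im| < (1 / 10) ^ (j + 1)}

/-- the extra hole of the source -/
def B0 : Set ℂ := hh 1 ⁻¹' sq 0

/-- the holes of the source: `B_0` and `S_1, S_2, ...` -/
def src (j : ℕ) : Set ℂ := if j = 0 then B0 else sq j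

/-- the limit of the planar homeomorphisms -/
def h0 (w : ℂ) : ℂ := ((max (dd w) 0 : ℝ) : ℂ) * dir w

lemma isOpen_sq (j : ℕ) : IsOpen (sq j) := by
  have h1 : Continuous fun w : ℂ => |w.re - (1 / 10) ^ j| := by fun_prop
  have h2 : Continuous fun w : ℂ => |w.im| := by fun_prop
  exact (isOpen_lt h1 continuous_const).inter (isOpen_lt h2 continuous_const)

lemma isOpen_B0 : IsOpen B0 := (isOpen_sq 0).preimage (hh_continuous one_pos le_rfl)

lemma isOpen_src (j : ℕ) : IsOpen (src j) := by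
  unfold src; split_ifs; exacts [isOpen_B0, isOpen_sq j]

lemma sq_re {j : ℕ} {w : ℂ} (h : w ∈ sq j) :
    9 / 10 * (1 / 10) ^ j < w.re ∧ w.re < 11 / 10 * (1 / 10) ^ j := by
  obtain ⟨h1, -⟩ := h
  rw [abs_lt, pow_succ] at h1
  constructor <;> linarith [h1.1, h1.2]

lemma sq_norm {j : ℕ} {w : ℂ} (h : w ∈ sq j) :
    9 / 10 * (1 / 10) ^ j < ‖w‖ ∧ ‖w‖ < 6 / 5 * (1 / 10) ^ j := by
  have h1 := sq_re h
  have h2 := h.2
  have hp : (0 : ℝ) < (1 / 10) ^ j := by positivity
  constructor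
  · exact h1.1.trans_le (Complex.re_le_norm w)
  · refine (Complex.norm_le_abs_re_add_abs_im w).trans_lt ?_
    rw [abs_of_pos (by linarith [h1.1])]
    rw [pow_succ] at h2
    linarith [h1.2]

lemma sq_disj {i j : ℕ} {u : ℝ} (hi : |u - (1 / 10) ^ i| < (1 / 10) ^ (i + 1))
    (hj : |u - (1 / 10) ^ j| < (1 / 10) ^ (j + 1)) : i = j := by
  wlog h : i < j generalizing i j
  · rcases lt_trichotomy i j with h1 | h1 | h1
    · exact this hi hj h1
    · exact h1
    · exact (this hj hi h1).symm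
  exfalso
  rw [abs_lt, pow_succ] at hi hj
  have : (1 / 10 : ℝ) ^ j ≤ (1 / 10) ^ (i + 1) :=
    pow_le_pow_of_le_one (by norm_num) (by norm_num) h
  rw [pow_succ] at this
  have hp : (0 : ℝ) < (1 / 10) ^ i := by positivity
  linarith [hi.1, hj.2]

lemma de_of_re {e : ℝ} (he1 : e ≤ 1) {w : ℂ} (hw : 0 ≤ w.re) : de e w = ‖w‖ := by
  rw [de, dd, min_eq_right hw, mul_zero, add_zero]
  rw [max_eq_left (by linarith : ‖w‖ - 3 ≤ ‖w‖), max_eq_left]
  exact mul_le_of_le_one_left (norm_nonneg _) he1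

lemma pow_pos10 (k : ℕ) : (0 : ℝ) < (1 / 10) ^ k := by positivity

lemma pow_le10 (k : ℕ) : ((1 : ℝ) / 10) ^ k ≤ 1 := pow_le_one₀ (by norm_num) (by norm_num)

/-- fixed on the squares of small index -/
lemma hh_sq_lt {j k : ℕ} (hjk : j < k) {w : ℂ} (hw : w ∈ sq j) : hh ((1 / 10) ^ k) w = w := by
  have h1 := sq_re hw
  have h2 := sq_norm hw
  have hp : (0 : ℝ) < (1 / 10) ^ j := pow_pos10 j
  rw [hh, de_of_re (pow_le10 k) (by linarith), Me_large (pow_pos10 k), norm_mul_dir]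
  have : (1 / 10 : ℝ) ^ k ≤ (1 / 10) ^ (j + 1) :=
    pow_le_pow_of_le_one (by norm_num) (by norm_num) hjk
  rw [pow_succ] at this
  linarith [h2.1]

/-- scaling on the squares of large index -/
lemma hh_sq_ge {j k : ℕ} (hjk : k ≤ j) {w : ℂ} (hw : w ∈ sq j) :
    hh ((1 / 10) ^ k) w = w / 10 := by
  have h1 := sq_re hw
  have h2 := sq_norm hw
  have hp : (0 : ℝ) < (1 / 10) ^ j := pow_pos10 j
  rw [hh, de_of_re (pow_le10 k) (by linarith), Me_small (pow_pos10 k)]
  · rw [div_mul_eq_mul_div, norm_mul_dir]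
  · have : (1 / 10 : ℝ) ^ j ≤ (1 / 10) ^ k :=
      pow_le_pow_of_le_one (by norm_num) (by norm_num) hjk
    linarith [h2.2]

lemma sq_div {j : ℕ} {w : ℂ} : w / 10 ∈ sq (j + 1) ↔ w ∈ sq j := by
  have e1 : (w / 10).re = w.re / 10 := by
    have := Complex.div_ofReal_re w 10
    simpa using this
  have e2 : (w / 10).im = w.im / 10 := by
    have := Complex.div_ofReal_im w 10
    simpa using this
  simp only [sq, mem_ofPred_eq, e1, e2]
  have e3 : w.re / 10 - (1 / 10) ^ (j + 1) = (w.re - (1 / 10) ^ j) / 10 := by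
    rw [pow_succ]; ring
  rw [e3, abs_div, abs_div, pow_succ _ (j + 1), abs_of_pos (by norm_num : (0 : ℝ) < 10)]
  constructor
  · rintro ⟨h1, h2⟩
    constructor <;> linarith
  · rintro ⟨h1, h2⟩
    constructor <;> linarith

lemma sq_scale {k : ℕ} {w : ℂ} (hw : w ∈ sq 0) : (((1 / 10 : ℝ) ^ k : ℝ) : ℂ) * w ∈ sq k := by
  obtain ⟨h1, h2⟩ := hw
  have hp := pow_pos10 k
  refine ⟨?_, ?_⟩
  · rw [re_ofReal_mul]
    have : (1 / 10 : ℝ) ^ k * w.re - (1 / 10) ^ k = (1 / 10) ^ k * (w.re - 1) := by ring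
    rw [this, abs_mul, abs_of_pos hp, pow_succ]
    simp only [pow_zero, zero_add, pow_one] at h1
    exact mul_lt_mul_of_pos_left h1 hp
  · rw [im_ofReal_mul, abs_mul, abs_of_pos hp, pow_succ]
    simp only [zero_add, pow_one] at h2
    exact mul_lt_mul_of_pos_left h2 hp

/-- geometry of `B0` -/
lemma B0_geom {w : ℂ} (hw : w ∈ B0) : 12 / 5 ≤ ‖w‖ ∧ ‖w‖ ≤ 3 ∧ ‖w‖ + 2 * w.re ≤ 0 ∧ w.re < 0 := by
  have hw' : hh 1 w ∈ sq 0 := hw
  have h1 := sq_norm hw'
  have h2 := sq_re hw'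
  have h3 : ‖hh 1 w‖ = sg ‖w‖ := by
    rw [norm_hh one_pos, one_mul, div_one]
    congr 1
    exact le_antisymm (de_le le_rfl w) (by simpa using de_ge 1 w)
  rw [h3] at h1
  simp only [pow_zero, mul_one] at h1 h2
  obtain ⟨a1, a2, a3⟩ := sg_mid h1.1 h1.2
  have hw0 : w ≠ 0 := by
    intro h; rw [h, norm_zero] at a1; norm_num at a1
  have hn : 0 < ‖w‖ := norm_pos_iff.2 hw0
  have e1 : hh 1 w = -((sg ‖w‖ : ℝ) : ℂ) * dir w := by
    have : de 1 w = ‖w‖ := le_antisymm (de_le le_rfl w) (by simpa using de_ge 1 w)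
    rw [hh, this, Me, M, div_one, tau_mid a1 a2, mul_comm I, exp_pi_mul_I]
    push_cast; ring
  have e2 : (hh 1 w).re = -(sg ‖w‖) * (w.re / ‖w‖) := by
    rw [e1, ← ofReal_neg, re_ofReal_mul, dir, re_ofReal_mul]
    ring
  rw [e2] at h2
  have h5 : w.re / ‖w‖ < 0 := by
    by_contra h
    push Not at h
    have : -(sg ‖w‖) * (w.re / ‖w‖) ≤ 0 := by
      have := mul_nonneg (by linarith : 0 ≤ sg ‖w‖) h
      linarith
    linarith [h2.1]
  have h6 : w.re < 0 := by
    by_contra h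
    push Not at h
    exact absurd h5 (not_lt.2 (div_nonneg h hn.le))
  refine ⟨a1, a2, ?_, h6⟩
  -- `- re / norm > 0.9 / sg > 0.9 / 1.2 = 3/4`
  have h7 : -(w.re / ‖w‖) ≥ 1 / 2 := by
    by_contra h
    push Not at h
    have h8 : -(sg ‖w‖) * (w.re / ‖w‖) ≤ 6 / 5 * (1 / 2) := by
      have : -(sg ‖w‖) * (w.re / ‖w‖) = sg ‖w‖ * (-(w.re / ‖w‖)) := by ring
      rw [this]
      exact mul_le_mul h1.2.le h.le (by linarith) (by norm_num)
    linarith [h2.1]
  have h9 : w.re / ‖w‖ * ‖w‖ = w.re := by field_simp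
  nlinarith

lemma dd_B0 {w : ℂ} (hw : w ∈ B0) : dd w ≤ 0 := by
  obtain ⟨h1, h2, h3, h4⟩ := B0_geom hw
  rw [dd, min_eq_left h4.le]
  exact max_le h3 (by linarith)

lemma hh_B0 {e : ℝ} (he : 0 < e) {w : ℂ} (hw : w ∈ B0) : hh e w = (e : ℂ) * hh 1 w := by
  have h1 : de e w = e * ‖w‖ := by
    rw [de, max_eq_right]
    exact (dd_B0 hw).trans (by positivity)
  have h2 : de 1 w = ‖w‖ := le_antisymm (de_le le_rfl w) (by simpa using de_ge 1 w)
  rw [hh, hh, h1, h2, Me, Me, mul_div_cancel_left₀ _ he.ne', div_one]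
  push_cast; ring

lemma hh_B0_mem (k : ℕ) {w : ℂ} (hw : w ∈ B0) : hh ((1 / 10) ^ k) w ∈ sq k := by
  rw [hh_B0 (pow_pos10 k) hw]
  exact sq_scale hw

lemma h0_re {w : ℂ} (hw : 0 ≤ w.re) : h0 w = w := by
  have : dd w = ‖w‖ := by
    rw [dd, min_eq_right hw, mul_zero, add_zero, max_eq_left (by linarith)]
  rw [h0, this, max_eq_left (norm_nonneg _), norm_mul_dir]

lemma h0_B0 {w : ℂ} (hw : w ∈ B0) : h0 w = 0 := by
  rw [h0, max_eq_right (dd_B0 hw)]; simp

lemma h0_lip (w w' : ℂ) : ‖h0 w - h0 w'‖ ≤ 5 * ‖w - w'‖ := by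
  have := polar_lip (φ := fun w => ((max (dd w) 0 : ℝ) : ℂ)) (A := 3) (fun w w' => ?_)
    (fun w => ?_) w w'
  · norm_num at this; exact this
  · rw [← ofReal_sub, norm_real, Real.norm_eq_abs]
    exact (abs_max_sub_max_le_abs _ _ _).trans (dd_lip w w')
  · rw [norm_real, Real.norm_eq_abs, abs_of_nonneg (le_max_right _ _)]
    exact max_le (dd_le w) (norm_nonneg w)

/-- uniform convergence on bounded sets -/
lemma hh_sub_h0 {e : ℝ} (he : 0 < e) (w : ℂ) : ‖hh e w - h0 w‖ ≤ e * (8 + ‖w‖) := by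
  have h1 : ‖Me e (de e w) - (de e w : ℂ)‖ ≤ 8 * e := by
    rcases le_total (4 * e) (de e w) with h | h
    · rw [Me_large he h]; simp; positivity
    · refine (norm_sub_le _ _).trans ?_
      have a1 := norm_Me_le he (de_nonneg he.le w)
      have a2 : ‖(de e w : ℂ)‖ = de e w := by
        rw [norm_real, Real.norm_eq_abs, abs_of_nonneg (de_nonneg he.le w)]
      rw [a2]; linarith
  have h2 : |de e w - max (dd w) 0| ≤ e * ‖w‖ := by
    have h0 : 0 ≤ e * ‖w‖ := by positivity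
    rw [de, abs_le]
    constructor
    · have : max (dd w) 0 ≤ max (dd w) (e * ‖w‖) := max_le_max le_rfl h0
      linarith
    · have : max (dd w) (e * ‖w‖) ≤ max (dd w) 0 + e * ‖w‖ :=
        max_le (by linarith [le_max_left (dd w) 0]) (by linarith [le_max_right (dd w) 0])
      linarith
  have e1 : hh e w - h0 w = ((Me e (de e w) - (de e w : ℂ)) + ((de e w - max (dd w) 0 : ℝ) : ℂ)) * dir w := by
    rw [hh, h0]; push_cast; ring
  rw [e1, norm_mul]
  calc _ ≤ ‖(Me e (de e w) - (de e w : ℂ)) + ((de e w - max (dd w) 0 : ℝ) : ℂ)‖ * 1 := by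
        gcongr; exact norm_dir_le w
    _ ≤ 8 * e + e * ‖w‖ := by
        rw [mul_one]
        refine (norm_add_le _ _).trans (add_le_add h1 ?_)
        rw [norm_real]; exact h2
    _ = _ := by ring

/-- the box condition -/
lemma norm_hh_lt_one {e : ℝ} (he : 0 < e) (he1 : e ≤ 1 / 10) (w : ℂ) : ‖hh e w‖ < 1 ↔ dd w < 1 := by
  rw [norm_hh he]
  have h1 : e * sg (de e w / e) < 1 ↔ de e w < 1 := by
    rcases le_total (4 * e) (de e w) with h | h
    · rw [sg_large (by rw [le_div_iff₀ he]; exact h)]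
      rw [mul_div_cancel₀ _ he.ne']
    · have h2 : e * sg (de e w / e) ≤ de e w := by
        calc e * sg (de e w / e) ≤ e * (de e w / e) := by
              gcongr; exact sg_le (div_nonneg (de_nonneg he.le w) he.le)
          _ = de e w := by field_simp
      constructor
      · intro _; linarith
      · intro _; linarith
  rw [h1, de, max_lt_iff]
  constructor
  · exact fun h => h.1
  · intro h
    refine ⟨h, ?_⟩
    have : ‖w‖ - 3 ≤ dd w := le_max_right _ _
    have hn : ‖w‖ < 4 := by linarith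
    nlinarith [norm_nonneg w]

/-- the holes are matched -/
lemma hh_holes {k : ℕ} (hk : 1 ≤ k) (w : ℂ) :
    (∃ j, 1 ≤ j ∧ hh ((1 / 10) ^ k) w ∈ sq j) ↔ ∃ j, w ∈ src j := by
  constructor
  · rintro ⟨j, hj, h⟩
    rcases lt_trichotomy j k with hjk | rfl | hjk
    · refine ⟨j, ?_⟩
      have h1 : hh ((1 / 10) ^ k) (hh ((1 / 10) ^ k) w) = hh ((1 / 10) ^ k) w := hh_sq_lt hjk h
      have h2 : hh ((1 / 10) ^ k) w = w := by
        have := congrArg (hhi ((1 / 10) ^ k)) h1
        rwa [hhi_hh (pow_pos10 k) (pow_le10 k), hhi_hh (pow_pos10 k) (pow_le10 k)] at this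
      rw [src, if_neg (by omega)]
      rwa [h2] at h
    · refine ⟨0, ?_⟩
      -- `hh w = e * v0` with `v0 ∈ sq 0`
      set e : ℝ := (1 / 10) ^ j with he
      have he0 : 0 < e := pow_pos10 j
      have hec : (e : ℂ) ≠ 0 := by exact_mod_cast he0.ne'
      set v0 : ℂ := ((e⁻¹ : ℝ) : ℂ) * hh e w with hv0
      have hv : v0 ∈ sq 0 := by
        obtain ⟨h1, h2⟩ := h
        rw [pow_succ, ← he] at h1 h2
        refine ⟨?_, ?_⟩
        · rw [hv0, re_ofReal_mul]
          have : e⁻¹ * (hh e w).re - (1 / 10) ^ 0 = e⁻¹ * ((hh e w).re - e) := by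
            field_simp
          rw [this, abs_mul, abs_of_pos (by positivity)]
          calc e⁻¹ * |(hh e w).re - e| < e⁻¹ * (e * (1 / 10)) := by gcongr
            _ = _ := by field_simp; norm_num
        · rw [hv0, im_ofReal_mul, abs_mul, abs_of_pos (by positivity)]
          calc e⁻¹ * |(hh e w).im| < e⁻¹ * (e * (1 / 10)) := by gcongr
            _ = _ := by field_simp; norm_num
      set w0 := hhi 1 v0 with hw0
      have hw0' : w0 ∈ B0 := by
        show hh 1 w0 ∈ sq 0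
        rw [hw0, hh_hhi one_pos le_rfl]; exact hv
      have h3 : hh e w0 = hh e w := by
        rw [hh_B0 he0 hw0', hw0, hh_hhi one_pos le_rfl, hv0]
        push_cast
        field_simp
      have h4 : w0 = w := by
        have := congrArg (hhi e) h3
        rwa [hhi_hh he0 (pow_le10 j), hhi_hh he0 (pow_le10 j)] at this
      rw [src, if_pos rfl, ← h4]
      exact hw0'
    · obtain ⟨i, rfl⟩ : ∃ i, j = i + 1 := ⟨j - 1, by omega⟩
      refine ⟨i, ?_⟩
      have h1 : hh ((1 / 10) ^ k) w * 10 / 10 ∈ sq (i + 1) := by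
        rw [mul_div_cancel_right₀ _ (by norm_num)]; exact h
      rw [sq_div] at h1
      have h2 := hh_sq_ge (by omega : k ≤ i) h1
      rw [mul_div_cancel_right₀ _ (by norm_num : (10 : ℂ) ≠ 0)] at h2
      have h3 : hh ((1 / 10) ^ k) w * 10 = w := by
        have := congrArg (hhi ((1 / 10) ^ k)) h2
        rwa [hhi_hh (pow_pos10 k) (pow_le10 k), hhi_hh (pow_pos10 k) (pow_le10 k)] at this
      rw [src, if_neg (by omega), ← h3]
      exact h1
  · rintro ⟨j, h⟩
    unfold src at h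
    split_ifs at h with hj
    · exact ⟨k, hk, hh_B0_mem k h⟩
    · rcases lt_or_ge j k with hjk | hjk
      · refine ⟨j, by omega, ?_⟩
        rw [hh_sq_lt hjk h]; exact h
      · refine ⟨j + 1, by omega, ?_⟩
        rw [hh_sq_ge hjk h, sq_div]; exact h

end

end Pool.Agent.U590.WS
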