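import Pool.Agent.U590.WS.Defs

/-! Locally Lipschitz maps are weakly differentiable; weak convergence of bounded sequences. -/

open MeasureTheory Set Filter Topology Metric
open scoped ENNReal NNReal InnerProductSpace ContDiff

namespace Pool.Agent.U590.WS

noncomputable section

variable {n : ℕ}

/-- integration by parts against Lipschitz maps -/
lemma weak_lip {K : ℝ≥0} {G : Eu n → Eu n} (hG : LipschitzWith K G) {φ : Eu n → ℝ}
    (hφ : ContDiff ℝ ∞ φ) (hc : HasCompactSupport φ) (v : Eu n) :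
    ∫ x, (fderiv ℝ φ x v) • G x = - ∫ x, φ x • (fderiv ℝ G x v) := by
  obtain ⟨D, hD⟩ := ContDiff.lipschitzWith_of_hasCompactSupport hc hφ (by simp)
  have hφd : Differentiable ℝ φ := hφ.differentiable (by simp)
  have hcont : Continuous (fun x => fderiv ℝ φ x v) :=
    (hφ.continuous_fderiv (by simp)).clm_apply continuous_const
  have hcs : HasCompactSupport (fun x => fderiv ℝ φ x v) := by
    have := hc.fderiv (𝕜 := ℝ)
    exact this.comp_left (g := fun A : Eu n →L[ℝ] ℝ => A v) (by simp)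
  have hae : ∀ᵐ x, DifferentiableAt ℝ G x := hG.ae_differentiableAt
  have hi1 : Integrable (fun x => (fderiv ℝ φ x v) • G x) :=
    (hcont.smul hG.continuous).integrable_of_hasCompactSupport hcs.smul_right
  have hi2 : Integrable (fun x => φ x • (fderiv ℝ G x v)) := by
    have hb : Integrable (fun x => φ x) := hφ.continuous.integrable_of_hasCompactSupport hc
    refine Integrable.mono' (hb.norm.mul_const (K * ‖v‖)) ?_ ?_
    · exact hφ.continuous.aestronglyMeasurable.smul
        ((measurable_fderiv_apply_const ℝ G v).aestronglyMeasurable)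
    · filter_upwards with x
      rw [norm_smul]
      gcongr
      exact (ContinuousLinearMap.le_opNorm _ _).trans
        (by gcongr; exact norm_fderiv_le_of_lipschitz ℝ hG)
  have key : ∀ (L : Eu n →L[ℝ] ℝ), L (∫ x, (fderiv ℝ φ x v) • G x) =
      L (- ∫ x, φ x • (fderiv ℝ G x v)) := by
    intro L
    have hLG : LipschitzWith (‖L‖₊ * K) (fun x => L (G x)) := L.lipschitz.comp hG
    have h := LipschitzWith.integral_lineDeriv_mul_eq (μ := (volume : Measure (Eu n))) hLG hD hc v
    rw [map_neg, ← L.integral_comp_comm hi1, ← L.integral_comp_comm hi2]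
    have h1 : ∫ x, lineDeriv ℝ (fun x => L (G x)) x v * φ x = ∫ x, L (φ x • (fderiv ℝ G x v)) := by
      apply integral_congr_ae
      filter_upwards [hae] with x hx
      have h2 : HasFDerivAt (fun x => L (G x)) (L.comp (fderiv ℝ G x)) x :=
        L.hasFDerivAt.comp x hx.hasFDerivAt
      rw [(h2.hasLineDerivAt v).lineDeriv]
      simp [mul_comm]
    have h3 : ∫ x, lineDeriv ℝ φ x (-v) * L (G x) = - ∫ x, L ((fderiv ℝ φ x v) • G x) := by
      rw [← integral_neg]
      apply integral_congr_ae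
      filter_upwards with x
      rw [((hφd x).hasFDerivAt.hasLineDerivAt (-v)).lineDeriv]
      simp
    rw [h1, h3] at h
    rw [h, neg_neg]
  ext i
  exact key (EuclideanSpace.proj i)

/-- local Lipschitz bound with a uniform constant -/
def LocLip (K : ℝ≥0) (F : Eu n → Eu n) (Ω : Set (Eu n)) : Prop :=
  ∀ z ∈ Ω, ∃ U ∈ 𝓝 z, LipschitzOnWith K F U

lemma LocLip.continuousOn {K : ℝ≥0} {F : Eu n → Eu n} {Ω : Set (Eu n)} (h : LocLip K F Ω) :
    ContinuousOn F Ω := by
  intro z hz
  obtain ⟨U, hU, hL⟩ := h z hz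
  exact ((hL.continuousOn z (mem_of_mem_nhds hU)).continuousAt hU).continuousWithinAt

lemma LocLip.norm_fderiv_le {K : ℝ≥0} {F : Eu n → Eu n} {Ω : Set (Eu n)} (h : LocLip K F Ω)
    {z : Eu n} (hz : z ∈ Ω) : ‖fderiv ℝ F z‖ ≤ K := by
  obtain ⟨U, hU, hL⟩ := h z hz
  exact norm_fderiv_le_of_lipschitzOn ℝ hU hL

lemma tsupport_cases {φ : Eu n → ℝ} {Ω : Set (Eu n)} (hs : tsupport φ ⊆ Ω) (F : Eu n → Eu n)
    (G : Eu n → Eu n) (v : Eu n) :
    (∫ x in Ω, (fderiv ℝ φ x v) • F x = ∫ x, (fderiv ℝ φ x v) • F x) ∧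
    (∫ x in Ω, φ x • G x = ∫ x, φ x • G x) := by
  constructor
  · apply setIntegral_eq_integral_of_forall_compl_eq_zero
    intro x hx
    have h1 : x ∉ tsupport (fderiv ℝ φ) := fun h' => hx (hs (tsupport_fderiv_subset ℝ h'))
    rw [image_eq_zero_of_notMem_tsupport h1]; simp
  · apply setIntegral_eq_integral_of_forall_compl_eq_zero
    intro x hx
    rw [image_eq_zero_of_notMem_tsupport fun h => hx (hs h)]; simp

/-- locally Lipschitz maps are weakly differentiable -/
lemma LocLip.isWeakDiff {K : ℝ≥0} {F : Eu n → Eu n} {Ω : Set (Eu n)} (hΩ : IsOpen Ω)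
    (h : LocLip K F Ω) : IsWeakDiff Ω F (fderiv ℝ F) := by
  intro φ hφ hc hs v
  obtain ⟨K', hK'c, hK1, hK2⟩ := exists_compact_between hc hΩ hs
  have hloc : LocallyLipschitzOn K' F := by
    intro x hx
    obtain ⟨U, hU, hL⟩ := h x (hK2 hx)
    exact ⟨K, U, mem_nhdsWithin_of_mem_nhds hU, hL⟩
  obtain ⟨C, hC⟩ := hloc.exists_lipschitzOnWith_of_compact hK'c
  obtain ⟨G, hG, hGF⟩ := hC.extend_finite_dimension
  obtain ⟨e1, e2⟩ := tsupport_cases hs F (fun x => fderiv ℝ F x v) v
  rw [e1, e2]
  have h1 : ∫ x, (fderiv ℝ φ x v) • F x = ∫ x, (fderiv ℝ φ x v) • G x := by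
    refine integral_congr_ae (Eventually.of_forall fun x => ?_)
    by_cases hx : x ∈ K'
    · simp only [hGF hx]
    · have h1 : x ∉ tsupport (fderiv ℝ φ) :=
        fun h' => hx (interior_subset (hK1 (tsupport_fderiv_subset ℝ h')))
      simp only [image_eq_zero_of_notMem_tsupport h1]; simp
  have h2 : ∫ x, φ x • (fderiv ℝ F x v) = ∫ x, φ x • (fderiv ℝ G x v) := by
    refine integral_congr_ae (Eventually.of_forall fun x => ?_)
    by_cases hx : x ∈ tsupport φ
    · have h3 : F =ᶠ[𝓝 x] G := by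
        filter_upwards [isOpen_interior.mem_nhds (hK1 hx)] with y hy
        exact hGF (interior_subset hy)
      simp only [h3.fderiv_eq]
    · simp only [image_eq_zero_of_notMem_tsupport hx, zero_smul]
  rw [h1, h2]
  exact weak_lip hG hφ hc v

end

end Pool.Agent.U590.WS
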